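import Pool.Agent.W709.VC.Rect

/-! Sums over integers as boundary integrals. -/

set_option autoImplicit false

namespace Pool.Agent.W588.HT

open Filter Topology Metric Set MeasureTheory Pool.Agent.W709.VC
open scoped Real Interval

noncomputable def ee (w : ℂ) : ℂ := Complex.exp (2 * π * Complex.I * w)

noncomputable def EE (w : ℂ) : ℂ := ee w - 1

noncomputable def kk (w : ℂ) : ℂ := 1 / EE w

theorem ee_norm (x y : ℝ) : ‖ee (x + y * Complex.I)‖ = Real.exp (-(2 * π * y)) := by
  unfold ee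
  rw [Complex.norm_exp]
  congr 1
  simp

theorem ee_deriv (w : ℂ) : HasDerivAt ee (2 * π * Complex.I * ee w) w := by
  have h : HasDerivAt (fun w : ℂ => 2 * π * Complex.I * w) (2 * π * Complex.I) w := by
    simpa using (hasDerivAt_id w).const_mul (2 * π * Complex.I : ℂ)
  refine h.cexp.congr_deriv ?_
  rw [mul_comm]
  rfl

theorem ee_add_one (w : ℂ) : ee (w + 1) = ee w := by
  unfold ee
  rw [mul_add, mul_one, Complex.exp_add, Complex.exp_two_pi_mul_I, mul_one]

theorem EE_deriv (w : ℂ) : HasDerivAt EE (2 * π * Complex.I * ee w) w := (ee_deriv w).sub_const 1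

theorem EE_diff : Differentiable ℂ EE := fun w => (EE_deriv w).differentiableAt

theorem tpi : (2 * π * Complex.I : ℂ) ≠ 0 := Complex.two_pi_I_ne_zero

theorem EE_zero {w : ℂ} (h : EE w = 0) : ∃ n : ℤ, w = n := by
  have h1 : Complex.exp (2 * π * Complex.I * w) = 1 := sub_eq_zero.1 h
  obtain ⟨n, hn⟩ := Complex.exp_eq_one_iff.1 h1
  refine ⟨n, ?_⟩
  have h2 : (2 * π * Complex.I : ℂ) * w = 2 * π * Complex.I * n := by rw [hn]; ring
  exact mul_left_cancel₀ tpi h2

theorem ee_int (n : ℤ) : ee n = 1 := by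
  unfold ee
  rw [Complex.exp_eq_one_iff]
  exact ⟨n, by ring⟩

theorem EE_ne_of_im {x y : ℝ} (hy : y ≠ 0) : EE (x + y * Complex.I) ≠ 0 := by
  intro h
  obtain ⟨n, hn⟩ := EE_zero h
  have := congrArg Complex.im hn
  simp at this
  exact hy this

theorem ee_half (n : ℤ) (y : ℝ) :
    ee (((n - 1 / 2 : ℝ) : ℂ) + y * Complex.I) = -((Real.exp (-(2 * π * y)) : ℝ) : ℂ) := by
  unfold ee
  have : (2 * π * Complex.I * (((n - 1 / 2 : ℝ) : ℂ) + y * Complex.I) : ℂ) =
      n * (2 * π * Complex.I) + (-(π * Complex.I)) + ((-(2 * π * y) : ℝ) : ℂ) := by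
    push_cast
    linear_combination (2 * π * y : ℂ) * Complex.I_sq
  rw [this, Complex.exp_add, Complex.exp_add, Complex.exp_int_mul_two_pi_mul_I, one_mul,
    Complex.exp_neg, Complex.exp_pi_mul_I, ← Complex.ofReal_exp]
  push_cast
  ring

theorem EE_half (n : ℤ) (y : ℝ) : EE (((n - 1 / 2 : ℝ) : ℂ) + y * Complex.I) =
    -((Real.exp (-(2 * π * y)) + 1 : ℝ) : ℂ) := by
  unfold EE
  rw [ee_half]
  push_cast
  ring

theorem kk_half (n : ℤ) (y : ℝ) : ‖kk (((n - 1 / 2 : ℝ) : ℂ) + y * Complex.I)‖ ≤ 1 := by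
  unfold kk
  rw [EE_half, norm_div, norm_one, norm_neg, Complex.norm_real, Real.norm_eq_abs]
  have := Real.exp_pos (-(2 * π * y))
  rw [abs_of_pos (by positivity), div_le_one (by positivity)]
  linarith

theorem EE_half_ne (n : ℤ) (y : ℝ) : EE (((n - 1 / 2 : ℝ) : ℂ) + y * Complex.I) ≠ 0 := by
  rw [EE_half, neg_ne_zero]
  have := Real.exp_pos (-(2 * π * y))
  exact_mod_cast (by positivity : (0:ℝ) < Real.exp (-(2 * π * y)) + 1).ne'

/-- half-integer boundary: `kk` is regular -/
theorem EE_Bd {m n : ℤ} {H : ℝ} (hH : 0 < H) {w : ℂ}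
    (hw : w ∈ Bd (m - 1 / 2) (n - 1 / 2) (-H) H) : EE w ≠ 0 := by
  rcases hw with ⟨x, -, rfl⟩ | ⟨x, -, rfl⟩ | ⟨y, -, rfl⟩ | ⟨y, -, rfl⟩
  · exact EE_ne_of_im (by linarith)
  · exact EE_ne_of_im hH.ne'
  · exact EE_half_ne n y
  · exact EE_half_ne m y

theorem kk_cont {w : ℂ} (h : EE w ≠ 0) : ContinuousAt kk w :=
  continuousAt_const.div EE_diff.continuous.continuousAt h

theorem alg1 {t e : ℂ} (ht : t ≠ 0) (he : e ≠ 0) (h : e - 1 ≠ 0) :
    -(-(t * e) / e ^ 2) / ((e - 1) / e) / t = 1 / (e - 1) := by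
  field_simp

theorem alg2 {t e : ℂ} (ht : t ≠ 0) (h : e - 1 ≠ 0) :
    -(t * e) / -(e - 1) / t - 1 = 1 / (e - 1) := by
  field_simp
  ring

/-- the residue of the kernel -/
theorem rect_kk (n : ℤ) {H : ℝ} (hH : 0 < H) : rect kk (n - 1 / 2) (n + 1 - 1 / 2) (-H) H = 1 := by
  have hside : ∀ y : ℝ, kk (((n + 1 - 1 / 2 : ℝ) : ℂ) + y * Complex.I) =
      kk (((n - 1 / 2 : ℝ) : ℂ) + y * Complex.I) := by
    intro y
    unfold kk EE
    rw [← ee_add_one (((n - 1 / 2 : ℝ) : ℂ) + y * Complex.I)]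
    congr 3
    push_cast
    ring
  -- bottom
  have hb : (∫ x in ((n : ℝ) - 1 / 2)..(n + 1 - 1 / 2), kk (x + (-H : ℝ) * Complex.I)) = 0 := by
    have hne : ∀ x : ℝ, ‖(ee (x + (-H : ℝ) * Complex.I))⁻¹‖ < 1 := by
      intro x
      rw [norm_inv, ee_norm]
      apply inv_lt_one_of_one_lt₀
      rw [Real.one_lt_exp_iff]
      have := Real.pi_pos
      nlinarith
    have hd : ∀ x ∈ [[(n : ℝ) - 1 / 2, n + 1 - 1 / 2]], HasDerivAt
        (fun x : ℝ => Complex.log (1 + -(ee (x + (-H : ℝ) * Complex.I))⁻¹) / (2 * π * Complex.I))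
        (kk (x + (-H : ℝ) * Complex.I)) x := by
      intro x _
      have h0 : ee ((x : ℂ) + (-H : ℝ) * Complex.I) ≠ 0 := Complex.exp_ne_zero _
      have h1 : HasDerivAt (fun x : ℂ => ee (x + (-H : ℝ) * Complex.I))
          (2 * π * Complex.I * ee (x + (-H : ℝ) * Complex.I)) (x : ℂ) :=
        HasDerivAt.comp_add_const (x : ℂ) _ (ee_deriv _)
      have h2 : HasDerivAt (fun x : ℂ => Complex.log (1 + -(ee (x + (-H : ℝ) * Complex.I))⁻¹) /
          (2 * π * Complex.I)) (kk (x + (-H : ℝ) * Complex.I)) (x : ℂ) := by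
        have h1' : HasDerivAt (fun x : ℂ => 1 + -(ee (x + (-H : ℝ) * Complex.I))⁻¹)
            (-(-(2 * π * Complex.I * ee (x + (-H : ℝ) * Complex.I)) /
              ee (x + (-H : ℝ) * Complex.I) ^ 2)) (x : ℂ) := (h1.inv h0).neg.const_add 1
        have h3 := (h1'.clog (Complex.mem_slitPlane_of_norm_lt_one
          (by rw [norm_neg]; exact hne x))).div_const (2 * π * Complex.I)
        refine h3.congr_deriv ?_
        have h4 : ee ((x : ℂ) + (-H : ℝ) * Complex.I) - 1 ≠ 0 := EE_ne_of_im (by linarith)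
        unfold kk EE
        have h5 : 1 + -(ee ((x : ℂ) + (-H : ℝ) * Complex.I))⁻¹ =
          (ee ((x : ℂ) + (-H : ℝ) * Complex.I) - 1) / ee ((x : ℂ) + (-H : ℝ) * Complex.I) := by
          field_simp
          ring
        rw [h5]
        exact alg1 tpi h0 h4
      exact h2.comp_ofReal
    have hc : Continuous (fun x : ℝ => kk (x + (-H : ℝ) * Complex.I)) := by
      rw [continuous_iff_continuousAt]
      intro x
      exact ContinuousAt.comp (g := kk) (kk_cont (EE_ne_of_im (by linarith))) (by fun_prop)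
    rw [intervalIntegral.integral_eq_sub_of_hasDerivAt hd (hc.intervalIntegrable _ _)]
    rw [sub_eq_zero]
    congr 5
    rw [← ee_add_one (((n - 1 / 2 : ℝ) : ℂ) + (-H : ℝ) * Complex.I)]
    congr 1
    push_cast
    ring
  -- top
  have ht : (∫ x in ((n : ℝ) - 1 / 2)..(n + 1 - 1 / 2), kk (x + (H : ℝ) * Complex.I)) = -1 := by
    have hne : ∀ x : ℝ, ‖ee (x + (H : ℝ) * Complex.I)‖ < 1 := by
      intro x
      rw [ee_norm, Real.exp_lt_one_iff]
      have := Real.pi_pos
      have := mul_pos this hH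
      linarith
    have hd : ∀ x ∈ [[(n : ℝ) - 1 / 2, n + 1 - 1 / 2]], HasDerivAt
        (fun x : ℝ => Complex.log (1 + -(ee (x + (H : ℝ) * Complex.I))) / (2 * π * Complex.I) - x)
        (kk (x + (H : ℝ) * Complex.I)) x := by
      intro x _
      have h1 : HasDerivAt (fun x : ℂ => ee (x + (H : ℝ) * Complex.I))
          (2 * π * Complex.I * ee (x + (H : ℝ) * Complex.I)) (x : ℂ) :=
        HasDerivAt.comp_add_const (x : ℂ) _ (ee_deriv _)
      have h2 : HasDerivAt (fun x : ℂ => Complex.log (1 + -(ee (x + (H : ℝ) * Complex.I))) /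
          (2 * π * Complex.I) - x) (kk (x + (H : ℝ) * Complex.I)) (x : ℂ) := by
        have h1' : HasDerivAt (fun x : ℂ => 1 + -(ee (x + (H : ℝ) * Complex.I)))
            (-(2 * π * Complex.I * ee (x + (H : ℝ) * Complex.I))) (x : ℂ) := h1.neg.const_add 1
        have h3 := ((h1'.clog (Complex.mem_slitPlane_of_norm_lt_one
          (by rw [norm_neg]; exact hne x))).div_const (2 * π * Complex.I)).sub (hasDerivAt_id (x : ℂ))
        refine h3.congr_deriv ?_
        have h4 : ee ((x : ℂ) + (H : ℝ) * Complex.I) - 1 ≠ 0 := EE_ne_of_im hH.ne'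
        unfold kk EE
        have h5 : 1 + -(ee ((x : ℂ) + (H : ℝ) * Complex.I)) =
          -(ee ((x : ℂ) + (H : ℝ) * Complex.I) - 1) := by ring
        rw [h5]
        exact alg2 tpi h4
      exact h2.comp_ofReal
    have hc : Continuous (fun x : ℝ => kk (x + (H : ℝ) * Complex.I)) := by
      rw [continuous_iff_continuousAt]
      intro x
      exact ContinuousAt.comp (g := kk) (kk_cont (EE_ne_of_im hH.ne')) (by fun_prop)
    rw [intervalIntegral.integral_eq_sub_of_hasDerivAt hd (hc.intervalIntegrable _ _)]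
    have h6 : ee (((n + 1 - 1 / 2 : ℝ) : ℂ) + (H : ℝ) * Complex.I) =
        ee (((n - 1 / 2 : ℝ) : ℂ) + (H : ℝ) * Complex.I) := by
      rw [← ee_add_one (((n - 1 / 2 : ℝ) : ℂ) + (H : ℝ) * Complex.I)]
      congr 1
      push_cast
      ring
    rw [h6]
    push_cast
    ring
  unfold rect
  rw [hb, ht]
  simp_rw [hside]
  ring

/-- a value as a boundary integral -/
theorem box {f : ℂ → ℂ} {V : Set ℂ} (hV : IsOpen V) (hf : DifferentiableOn ℂ f V) (n : ℤ) {H : ℝ}
    (hH : 0 < H) (hK : ∀ x y : ℝ, (n : ℝ) - 1 / 2 ≤ x → x ≤ n + 1 - 1 / 2 → |y| ≤ H →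
      (x : ℂ) + y * Complex.I ∈ V) :
    rect (fun w => f w * kk w) (n - 1 / 2) (n + 1 - 1 / 2) (-H) H = f n := by
  have hnV : (n : ℂ) ∈ V := by
    have := hK n 0 (by linarith) (by linarith) (by simpa using hH.le)
    simpa using this
  have hEn : EE n = 0 := by unfold EE; rw [ee_int]; ring
  -- the regular part
  set W : Set ℂ := V ∩ {w | dslope EE (n : ℂ) w ≠ 0} with hW
  have hdE : Differentiable ℂ (dslope EE (n : ℂ)) := by
    rw [← differentiableOn_univ]
    exact (Complex.differentiableOn_dslope univ_mem).2 EE_diff.differentiableOn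
  have hWo : IsOpen W := hV.inter (isOpen_ne_fun hdE.continuous continuous_const)
  set g : ℂ → ℂ := fun w => dslope f (n : ℂ) w / dslope EE (n : ℂ) w with hg
  have hgd : DifferentiableOn ℂ g W := by
    apply DifferentiableOn.div
    · exact ((Complex.differentiableOn_dslope (hV.mem_nhds hnV)).2 hf).mono inter_subset_left
    · exact hdE.differentiableOn
    · exact fun w hw => hw.2
  have hin : ∀ x y : ℝ, (n : ℝ) - 1 / 2 ≤ x → x ≤ n + 1 - 1 / 2 → |y| ≤ H →
      (x : ℂ) + y * Complex.I ∈ W := by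
    intro x y hx1 hx2 hy
    refine ⟨hK x y hx1 hx2 hy, ?_⟩
    show dslope EE (n : ℂ) _ ≠ 0
    by_cases hw : (x : ℂ) + y * Complex.I = n
    · rw [hw, dslope_same, (EE_deriv _).deriv, ee_int, mul_one]
      exact tpi
    · rw [dslope_of_ne _ hw, slope_def_field, hEn, sub_zero]
      apply div_ne_zero _ (sub_ne_zero.2 hw)
      intro h0
      obtain ⟨m, hm⟩ := EE_zero h0
      have h1 := congrArg Complex.re hm
      have h2 := congrArg Complex.im hm
      simp at h1 h2
      have h3 : (m : ℝ) < n + 1 := by linarith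
      have h4 : (n : ℝ) < m + 1 := by linarith
      have h5 : m = n := by
        have : m < n + 1 := by exact_mod_cast h3
        have : n < m + 1 := by exact_mod_cast h4
        omega
      apply hw
      rw [hm, h5]
  have hBd : ∀ w ∈ Bd ((n : ℝ) - 1 / 2) (n + 1 - 1 / 2) (-H) H, w ∈ W ∧ w ≠ n ∧ EE w ≠ 0 := by
    intro w hw
    have hE : EE w ≠ 0 := by
      apply EE_Bd (m := n) (n := n + 1) hH
      push_cast
      exact hw
    refine ⟨?_, fun h => hE (h ▸ hEn), hE⟩
    rcases hw with ⟨x, hx, rfl⟩ | ⟨x, hx, rfl⟩ | ⟨y, hy, rfl⟩ | ⟨y, hy, rfl⟩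
    · rw [uIcc_of_le (by linarith)] at hx
      exact hin x _ hx.1 hx.2 (by rw [abs_neg, abs_of_pos hH])
    · rw [uIcc_of_le (by linarith)] at hx
      exact hin x _ hx.1 hx.2 (by rw [abs_of_pos hH])
    · rw [uIcc_of_le (by linarith)] at hy
      exact hin _ y (by linarith) le_rfl (abs_le.2 ⟨hy.1, hy.2⟩)
    · rw [uIcc_of_le (by linarith)] at hy
      exact hin _ y le_rfl (by linarith) (abs_le.2 ⟨hy.1, hy.2⟩)
  have h1 : rect (fun w => f w * kk w) (n - 1 / 2) (n + 1 - 1 / 2) (-H) H =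
      rect (fun w => g w + f n * kk w) (n - 1 / 2) (n + 1 - 1 / 2) (-H) H := by
    apply rect_congr
    intro w hw
    obtain ⟨-, h2, h3⟩ := hBd w hw
    simp only [hg]
    rw [dslope_of_ne _ h2, dslope_of_ne _ h2, slope_def_field, slope_def_field, hEn, sub_zero]
    unfold kk
    have h4 : w - n ≠ 0 := sub_ne_zero.2 h2
    field_simp
    ring
  have hRg : RI g (n - 1 / 2) (n + 1 - 1 / 2) (-H) H := by
    apply RI_of_cont
    intro w hw
    exact hgd.continuousOn.continuousAt (hWo.mem_nhds (hBd w hw).1)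
  have hRk : RI (fun w => f n * kk w) (n - 1 / 2) (n + 1 - 1 / 2) (-H) H := by
    apply RI_of_cont
    intro w hw
    exact continuousAt_const.mul (kk_cont (hBd w hw).2.2)
  rw [h1, rect_add hRg hRk, rect_mul, rect_kk n hH, mul_one]
  have h2 : rect g (n - 1 / 2) (n + 1 - 1 / 2) (-H) H = 0 := by
    have h3 := Complex.integral_boundary_rect_eq_zero_of_differentiableOn g
      ⟨n - 1 / 2, -H⟩ ⟨n + 1 - 1 / 2, H⟩ (hgd.mono (by
        intro w hw
        rw [Complex.mem_reProdIm] at hw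
        simp only at hw
        rw [uIcc_of_le (by linarith), uIcc_of_le (by linarith)] at hw
        have := hin w.re w.im hw.1.1 hw.1.2 (abs_le.2 ⟨hw.2.1, hw.2.2⟩)
        rwa [Complex.re_add_im] at this))
    simpa [rect] using h3
  rw [h2, zero_add]

theorem rect_append {f : ℂ → ℂ} {a b e c d : ℝ}
    (h1 : IntervalIntegrable (fun x : ℝ => f (x + c * Complex.I)) volume a b)
    (h2 : IntervalIntegrable (fun x : ℝ => f (x + c * Complex.I)) volume b e)
    (h3 : IntervalIntegrable (fun x : ℝ => f (x + d * Complex.I)) volume a b)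
    (h4 : IntervalIntegrable (fun x : ℝ => f (x + d * Complex.I)) volume b e) :
    rect f a e c d = rect f a b c d + rect f b e c d := by
  unfold rect
  rw [← intervalIntegral.integral_add_adjacent_intervals h1 h2,
    ← intervalIntegral.integral_add_adjacent_intervals h3 h4]
  ring

/-- a sum over integers as a boundary integral -/
theorem sum_rect {f : ℂ → ℂ} {V : Set ℂ} (hV : IsOpen V) (hf : DifferentiableOn ℂ f V) {A B : ℕ}
    (hAB : A ≤ B) {H : ℝ} (hH : 0 < H)
    (hK : ∀ x y : ℝ, (A : ℝ) - 1 / 2 ≤ x → x ≤ B - 1 / 2 → |y| ≤ H →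
      (x : ℂ) + y * Complex.I ∈ V) :
    ∑ d ∈ Finset.Ico A B, f d = rect (fun w => f w * kk w) (A - 1 / 2) (B - 1 / 2) (-H) H := by
  induction B, hAB using Nat.le_induction with
  | base => simp [rect]
  | succ B hAB ih =>
    have hA : (A : ℝ) ≤ B := by exact_mod_cast hAB
    rw [Finset.sum_Ico_succ_top hAB, ih (fun x y h1 h2 h3 => hK x y h1 (by push_cast; linarith) h3)]
    have hb := box (f := f) hV hf (B : ℤ) hH (fun x y h1 h2 h3 => hK x y (by push_cast at h1; linarith)
      (by push_cast at h2 ⊢; linarith) h3)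
    push_cast at hb ⊢
    rw [← hb]
    have key : ∀ (c u v : ℝ), c ≠ 0 → |c| ≤ H → (A : ℝ) - 1 / 2 ≤ u → u ≤ v → v ≤ B + 1 - 1 / 2 →
        IntervalIntegrable (fun x : ℝ => f (x + c * Complex.I) * kk (x + c * Complex.I)) volume u v := by
      intro c u v hc hcH hu huv hv
      apply ContinuousOn.intervalIntegrable
      rw [uIcc_of_le huv]
      intro x hx
      have hm : (x : ℂ) + c * Complex.I ∈ V := hK x c (hu.trans hx.1)
        (by push_cast; exact hx.2.trans hv) hcH
      have h1 : ContinuousAt f ((x : ℂ) + c * Complex.I) :=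
        hf.continuousOn.continuousAt (hV.mem_nhds hm)
      have h2 : ContinuousAt kk ((x : ℂ) + c * Complex.I) := kk_cont (EE_ne_of_im hc)
      have h3 : ContinuousAt (fun x : ℝ => (x : ℂ) + c * Complex.I) x := by fun_prop
      exact ((ContinuousAt.comp (g := f) (f := fun x : ℝ => (x : ℂ) + c * Complex.I) h1 h3).mul
        (ContinuousAt.comp (g := kk) (f := fun x : ℝ => (x : ℂ) + c * Complex.I) h2
          h3)).continuousWithinAt
    have e1 : |(-H)| ≤ H := by rw [abs_neg, abs_of_pos hH]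
    have e2 : |H| ≤ H := by rw [abs_of_pos hH]
    exact (rect_append (f := fun w => f w * kk w)
      (key (-H) _ _ (by linarith) e1 (by linarith) (by linarith) (by linarith))
      (key (-H) _ _ (by linarith) e1 (by linarith) (by linarith) (by linarith))
      (key H _ _ hH.ne' e2 (by linarith) (by linarith) (by linarith))
      (key H _ _ hH.ne' e2 (by linarith) (by linarith) (by linarith))).symm

end Pool.Agent.W588.HT
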