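import Pool.Agent.W588.HT.Lap

/-! The Laplace method on a horizontal segment through a critical point: main part. -/

set_option autoImplicit false

namespace Pool.Agent.W588.HT

open Filter Topology Metric Set MeasureTheory
open scoped Real Interval

theorem tube {Q : ℂ → ℂ} {U : Set ℂ} (hU : IsOpen U) (hQ : ContinuousOn Q U) {a b η : ℝ}
    (hK : ∀ x : ℝ, a ≤ x → x ≤ b → (x : ℂ) + η * Complex.I ∈ U) {ε : ℝ} (hε : 0 < ε) :
    ∃ ρ : ℝ, 0 < ρ ∧ ∀ x : ℝ, a ≤ x → x ≤ b → ∀ y : ℝ, |y - η| < ρ →
      (x : ℂ) + y * Complex.I ∈ U ∧ ‖Q (x + y * Complex.I) - Q (x + η * Complex.I)‖ < ε := by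
  have h := (isCompact_Icc (a := a) (b := b)).eventually_forall_of_forall_eventually (x₀ := η)
    (P := fun y x => (x : ℂ) + y * Complex.I ∈ U ∧
      ‖Q (x + y * Complex.I) - Q (x + η * Complex.I)‖ < ε) (by
      intro x hx
      have hxU := hK x hx.1 hx.2
      have hc : ContinuousAt (fun z : ℝ × ℝ => (z.2 : ℂ) + z.1 * Complex.I) (η, x) := by fun_prop
      have hc2 : ContinuousAt (fun z : ℝ × ℝ => (z.2 : ℂ) + η * Complex.I) (η, x) := by fun_prop
      have hQc : ContinuousAt Q ((x : ℂ) + η * Complex.I) := hQ.continuousAt (hU.mem_nhds hxU)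
      have h1 : ∀ᶠ z : ℝ × ℝ in 𝓝 (η, x), (z.2 : ℂ) + z.1 * Complex.I ∈ U :=
        hc.eventually (hU.mem_nhds hxU)
      have h2 : ContinuousAt (fun z : ℝ × ℝ => ‖Q ((z.2 : ℂ) + z.1 * Complex.I) -
          Q ((z.2 : ℂ) + η * Complex.I)‖) (η, x) := by
        apply ContinuousAt.norm
        apply ContinuousAt.sub
        · exact ContinuousAt.comp (g := Q) hQc hc
        · exact ContinuousAt.comp (g := Q) hQc hc2
      have h3 : ∀ᶠ z : ℝ × ℝ in 𝓝 (η, x), ‖Q ((z.2 : ℂ) + z.1 * Complex.I) -
          Q ((z.2 : ℂ) + η * Complex.I)‖ < ε :=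
        h2.tendsto.eventually_lt_const (by simpa using hε)
      exact h1.and h3)
  obtain ⟨ρ, hρ, hb⟩ := Metric.eventually_nhds_iff.1 h
  exact ⟨ρ, hρ, fun x hx1 hx2 y hy => hb (y := y) (by rwa [Real.dist_eq]) x ⟨hx1, hx2⟩⟩

/-- the strict inequality away from the critical point is uniform -/
theorem gap {φ : ℝ → ℝ} {a b x0 v : ℝ} (hφ : ContinuousOn φ (Icc a b))
    (h : ∀ x : ℝ, a ≤ x → x ≤ b → x ≠ x0 → φ x < v) {δ : ℝ} (hδ : 0 < δ) :
    ∃ κ : ℝ, 0 < κ ∧ ∀ x : ℝ, a ≤ x → x ≤ b → δ ≤ |x - x0| → φ x ≤ v - κ := by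
  have hc : IsCompact (Icc a b ∩ {x | δ ≤ |x - x0|}) := by
    apply isCompact_Icc.inter_right
    exact isClosed_le continuous_const (by fun_prop)
  rcases (Icc a b ∩ {x | δ ≤ |x - x0|}).eq_empty_or_nonempty with he | hne
  · refine ⟨1, one_pos, fun x h1 h2 h3 => ?_⟩
    have : x ∈ Icc a b ∩ {x | δ ≤ |x - x0|} := ⟨⟨h1, h2⟩, h3⟩
    rw [he] at this
    exact absurd this (notMem_empty x)
  · obtain ⟨w, hw, hmax⟩ := hc.exists_isMaxOn hne (hφ.mono inter_subset_left)
    have hwx : w ≠ x0 := by
      rintro rfl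
      have := hw.2
      simp only [mem_ofPred_eq, sub_self, abs_zero] at this
      linarith
    have h1 := h w hw.1.1 hw.1.2 hwx
    refine ⟨v - φ w, by linarith, fun x h2 h3 h4 => ?_⟩
    have : φ x ≤ φ w := hmax ⟨⟨h2, h3⟩, h4⟩
    linarith

theorem sub_eq (x : ℝ) (w : ℂ) : (x : ℂ) + w.im * Complex.I - w = ((x - w.re : ℝ) : ℂ) := by
  apply Complex.ext <;> simp

theorem scale {N : ℕ} (hN : 1 ≤ N) (t : ℝ) : (N : ℝ) * ((Real.sqrt N)⁻¹ * t) ^ 2 = t ^ 2 := by
  have h : (1 : ℝ) ≤ N := by exact_mod_cast hN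
  have hs : Real.sqrt N ^ 2 = N := Real.sq_sqrt (by positivity)
  have h0 : (N : ℝ) ≠ 0 := by positivity
  rw [mul_pow, inv_pow, hs, ← mul_assoc, mul_inv_cancel₀ h0, one_mul]

theorem core (q p : ℕ → ℂ → ℂ) (Q P : ℂ → ℂ) (U : Set ℂ) (a b : ℝ) (z : ℂ) (hU : IsOpen U)
    (hq : ∀ᶠ N : ℕ in atTop, DifferentiableOn ℂ (q N) U) (hQ : DifferentiableOn ℂ Q U)
    (hqQ : TendstoUniformlyOn q Q atTop U) (hp : ∀ᶠ N : ℕ in atTop, DifferentiableOn ℂ (p N) U)
    (hP : DifferentiableOn ℂ P U) (hpP : TendstoUniformlyOn p P atTop U) (haz : a < z.re)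
    (hzb : z.re < b) (hK : ∀ x : ℝ, a ≤ x → x ≤ b → (x : ℂ) + z.im * Complex.I ∈ U)
    (hcr : deriv Q z = 0) (hneg : (deriv (deriv Q) z).re < 0) (hPz : P z ≠ 0)
    (hmax : ∀ x : ℝ, a ≤ x → x ≤ b → x ≠ z.re → (Q (x + z.im * Complex.I)).re < (Q z).re)
    {δ : ℝ} (hδ : 0 < δ) {α β : ℕ → ℝ} (hα : ∀ᶠ N in atTop, a ≤ α N ∧ α N ≤ z.re - δ)
    (hβ : ∀ᶠ N in atTop, z.re + δ ≤ β N ∧ β N ≤ b) :
    Gro (fun N => ∫ x in (α N)..(β N), p N (x + z.im * Complex.I) *
      Complex.exp (N * q N (x + z.im * Complex.I))) (Q z).re := by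
  have hzeq : (z.re : ℂ) + z.im * Complex.I = z := Complex.re_add_im z
  have hzU : z ∈ U := by rw [← hzeq]; exact hK z.re haz.le hzb.le
  set v : ℝ := (Q z).re with hv
  set A : ℂ := deriv (deriv Q) z with hA
  set c : ℝ := -A.re / 4 with hc
  have hc0 : 0 < c := by rw [hc]; linarith
  have hlu := hqQ.tendstoLocallyUniformlyOn
  -- the critical points
  have hQ1 : DifferentiableOn ℂ (deriv Q) U := hQ.deriv hU
  have hdA : HasDerivAt (deriv Q) A z := ((hQ1 z hzU).differentiableAt (hU.mem_nhds hzU)).hasDerivAt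
  have hA0 : A ≠ 0 := by
    intro h; rw [h] at hneg; simp at hneg
  have hq1 : ∀ᶠ N in atTop, DifferentiableOn ℂ ((deriv ∘ q) N) U := by
    filter_upwards [hq] with N h
    exact h.deriv hU
  obtain ⟨u, hu, hucr⟩ := seq_of_ev (P := fun N w => deriv (q N) w = 0)
    (exists_zero hU hq1 hQ1 (hlu.deriv hq hU) hzU hcr hdA hA0)
  obtain ⟨r, hr, hrU, htay⟩ := taylor2 hU hq hQ hlu hzU hc0
  -- the gap
  obtain ⟨κ, hκ, hgap⟩ := gap (φ := fun x : ℝ => (Q (x + z.im * Complex.I)).re) (a := a) (b := b)
    (v := v) (x0 := z.re) (by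
      apply Complex.continuous_re.comp_continuousOn
      apply hQ.continuousOn.comp (by fun_prop)
      intro x hx
      exact hK x hx.1 hx.2) hmax (δ := min δ (r / 2)) (by positivity)
  obtain ⟨ρ, hρ, htube⟩ := tube hU hQ.continuousOn hK (ε := κ / 4) (by positivity)
  obtain ⟨ρ', hρ', htube'⟩ := tube hU hP.continuousOn hK (ε := 1) one_pos
  -- bound of p
  obtain ⟨Cp, hCp0, hCp⟩ : ∃ Cp : ℝ, 0 < Cp ∧ ∀ᶠ N in atTop, ∀ x : ℝ, a ≤ x → x ≤ b → ∀ y : ℝ,
      |y - z.im| < ρ' → ‖p N (x + y * Complex.I)‖ ≤ Cp := by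
    have hcp : ContinuousOn (fun x : ℝ => ‖P (x + z.im * Complex.I)‖) (Icc a b) := by
      apply ContinuousOn.norm
      apply hP.continuousOn.comp (by fun_prop)
      intro x hx
      exact hK x hx.1 hx.2
    obtain ⟨C, hC⟩ := isCompact_Icc.bddAbove_image hcp
    refine ⟨|C| + 2, by positivity, ?_⟩
    rw [Metric.tendstoUniformlyOn_iff] at hpP
    filter_upwards [hpP 1 one_pos] with N hN x hx1 hx2 y hy
    have h1 := htube' x hx1 hx2 y hy
    have h2 := hN _ h1.1
    rw [dist_eq_norm] at h2
    have h3 : ‖P (x + z.im * Complex.I)‖ ≤ C := hC (mem_image_of_mem _ ⟨hx1, hx2⟩)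
    have h4 : p N (x + y * Complex.I) = -(P (x + y * Complex.I) - p N (x + y * Complex.I)) +
      (P (x + y * Complex.I) - P (x + z.im * Complex.I)) + P (x + z.im * Complex.I) := by ring
    rw [h4]
    have h5 := norm_add₃_le (a := -(P (x + y * Complex.I) - p N (x + y * Complex.I)))
      (b := (P (x + y * Complex.I) - P (x + z.im * Complex.I))) (c := P (x + z.im * Complex.I))
    rw [norm_neg] at h5
    have := le_abs_self C
    linarith [h1.2]
  -- real part of q far from the critical point
  rw [Metric.tendstoUniformlyOn_iff] at hqQ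
  have hfar : ∀ᶠ N in atTop, ∀ x : ℝ, a ≤ x → x ≤ b → min δ (r / 2) ≤ |x - z.re| → ∀ y : ℝ,
      |y - z.im| < ρ → (q N (x + y * Complex.I)).re ≤ v - κ / 2 := by
    filter_upwards [hqQ (κ / 4) (by positivity)] with N hN x hx1 hx2 hx3 y hy
    have h1 := htube x hx1 hx2 y hy
    have h2 := hN _ h1.1
    have h3 := hgap x hx1 hx2 hx3
    rw [dist_eq_norm] at h2
    have h4 : (q N (x + y * Complex.I)).re = -(Q (x + y * Complex.I) - q N (x + y * Complex.I)).re +
      (Q (x + y * Complex.I) - Q (x + z.im * Complex.I)).re + (Q (x + z.im * Complex.I)).re := by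
      simp only [Complex.sub_re]; ring
    have h5 := (abs_le.1 (Complex.abs_re_le_norm (Q (x + y * Complex.I) - q N (x + y * Complex.I)))).1
    have h6 := (abs_le.1 (Complex.abs_re_le_norm (Q (x + y * Complex.I) -
      Q (x + z.im * Complex.I)))).2
    rw [h4]
    linarith [h1.2]
  have hur : Tendsto (fun N => (u N).re) atTop (𝓝 z.re) := (Complex.continuous_re.tendsto z).comp hu
  have hui : Tendsto (fun N => (u N).im) atTop (𝓝 z.im) := (Complex.continuous_im.tendsto z).comp hu
  have hqu : Tendsto (fun N => q N (u N)) atTop (𝓝 (Q z)) := by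
    apply hlu.tendsto_comp (hQ.continuousOn z hzU) hzU
    rw [tendsto_nhdsWithin_iff]
    exact ⟨hu, hu.eventually (hU.mem_nhds hzU)⟩
  have hqur : Tendsto (fun N => (q N (u N)).re) atTop (𝓝 v) :=
    (Complex.continuous_re.tendsto _).comp hqu
  -- the two integrals
  set I0 : ℕ → ℂ := fun N => ∫ x in (α N)..(β N), p N (x + z.im * Complex.I) *
      Complex.exp (N * q N (x + z.im * Complex.I)) with hI0
  set I1 : ℕ → ℂ := fun N => ∫ x in (α N)..(β N), p N (x + (u N).im * Complex.I) *
      Complex.exp (N * q N (x + (u N).im * Complex.I)) with hI1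
  have hdiff : Neg (fun N => I0 N - I1 N) v := by
    apply neg_of_bound (C := 2 * Cp * ρ) (κ := κ / 2) (by positivity)
    filter_upwards [hα, hβ, hCp, hfar, hui.eventually (Metric.ball_mem_nhds z.im
      (show 0 < min ρ ρ' by positivity)), hq, hp] with N h1 h2 h3 h4 h5 h6 h7
    rw [Real.dist_eq, lt_min_iff] at h5
    have hαβ : α N ≤ β N := by linarith
    have hy : ∀ y ∈ [[z.im, (u N).im]], |y - z.im| < ρ ∧ |y - z.im| < ρ' := by
      intro y hy
      have : |y - z.im| ≤ |(u N).im - z.im| := abs_sub_left_of_mem_uIcc hy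
      exact ⟨by linarith, by linarith⟩
    have hsub : ([[α N, β N]] ×ℂ [[z.im, (u N).im]]) ⊆ U := by
      intro w hw
      rw [Complex.mem_reProdIm, uIcc_of_le hαβ] at hw
      have := (htube w.re (h1.1.trans hw.1.1) (hw.1.2.trans h2.2) w.im (hy _ hw.2).1).1
      rwa [Complex.re_add_im] at this
    have hD : DifferentiableOn ℂ (fun w => p N w * Complex.exp (N * q N w)) U :=
      h7.mul ((h6.const_mul _).cexp)
    have hC := Complex.integral_boundary_rect_eq_zero_of_differentiableOn
      (fun w => p N w * Complex.exp (N * q N w)) ⟨α N, z.im⟩ ⟨β N, (u N).im⟩ (hD.mono hsub)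
    simp only at hC
    have hside : ∀ t : ℝ, a ≤ t → t ≤ b → δ ≤ |t - z.re| →
        ‖∫ y in z.im..(u N).im, p N (t + y * Complex.I) * Complex.exp (N * q N (t + y * Complex.I))‖
          ≤ Cp * Real.exp (N * (v - κ / 2)) * ρ := by
      intro t ht1 ht2 ht3
      have h8 := intervalIntegral.norm_integral_le_of_norm_le_const (a := z.im) (b := (u N).im)
        (f := fun y : ℝ => p N (t + y * Complex.I) * Complex.exp (N * q N (t + y * Complex.I)))
        (C := Cp * Real.exp (N * (v - κ / 2))) (by
          intro y hy'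
          have hy2 := hy y (uIoc_subset_uIcc hy')
          rw [norm_mul, Complex.norm_exp]
          apply mul_le_mul (h3 t ht1 ht2 y hy2.2) _ (Real.exp_pos _).le hCp0.le
          apply Real.exp_le_exp.2
          have h9 := h4 t ht1 ht2 ((min_le_left _ _).trans ht3) y hy2.1
          have h10 : ((N : ℂ) * q N (t + y * Complex.I)).re = N * (q N (t + y * Complex.I)).re := by
            simp
          rw [h10]
          exact mul_le_mul_of_nonneg_left h9 (Nat.cast_nonneg N))
      refine h8.trans (mul_le_mul_of_nonneg_left h5.1.le (by positivity))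
    have hs1 := hside (α N) h1.1 (by linarith [h2.2]) (by
      rw [abs_sub_comm]; exact (by linarith : δ ≤ z.re - α N).trans (le_abs_self _))
    have hs2 := hside (β N) (by linarith [h1.1]) h2.2
      ((by linarith : δ ≤ β N - z.re).trans (le_abs_self _))
    have e1 : I0 N - I1 N = Complex.I * (∫ y in z.im..(u N).im, p N (α N + y * Complex.I) *
        Complex.exp (N * q N (α N + y * Complex.I))) -
        Complex.I * (∫ y in z.im..(u N).im, p N (β N + y * Complex.I) *
        Complex.exp (N * q N (β N + y * Complex.I))) := by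
      simp only [hI0, hI1]
      simp only [smul_eq_mul] at hC
      linear_combination hC
    rw [e1]
    refine (norm_sub_le _ _).trans ?_
    rw [norm_mul, norm_mul, Complex.norm_I, one_mul, one_mul]
    have h11 : 0 < Real.exp (N * (v - κ / 2)) := Real.exp_pos _
    have h12 : (0 : ℝ) ≤ N := Nat.cast_nonneg N
    have h13 : Cp * Real.exp (N * (v - κ / 2)) * ρ ≤
        Cp * Real.exp (N * (v - κ / 2)) * ρ * (N + 1) := by
      have : 0 ≤ Cp * Real.exp (N * (v - κ / 2)) * ρ := by positivity
      nlinarith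
    calc _ ≤ Cp * Real.exp (N * (v - κ / 2)) * ρ + Cp * Real.exp (N * (v - κ / 2)) * ρ := by
          linarith
      _ ≤ 2 * (Cp * Real.exp (N * (v - κ / 2)) * ρ * (N + 1)) := by linarith
      _ = _ := by ring
  have hG1 : Gro I1 v := by
    set c' : ℝ := min c (κ / (4 * (b - a + 1) ^ 2)) with hc'
    have hba : 0 < b - a := by linarith
    have hc'0 : 0 < c' := by positivity
    have hc'c : c' ≤ c := min_le_left _ _
    have hc'κ : c' * (b - a + 1) ^ 2 ≤ κ / 4 := by
      have h1 : c' ≤ κ / (4 * (b - a + 1) ^ 2) := min_le_right _ _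
      rw [le_div_iff₀ (by positivity)] at h1
      linarith
    -- the quadratic bound
    have hquad : ∀ᶠ N in atTop, ∀ x : ℝ, a ≤ x → x ≤ b →
        (q N (x + (u N).im * Complex.I)).re - (q N (u N)).re ≤ -c' * (x - (u N).re) ^ 2 := by
      filter_upwards [hfar, htay, hucr, hur.eventually (Metric.ball_mem_nhds z.re
        (show 0 < min 1 (r / 2) by positivity)), hui.eventually (Metric.ball_mem_nhds z.im
        (show 0 < min ρ (r / 2) by positivity)), hu.eventually (Metric.ball_mem_nhds z hr),
        hqur.eventually_const_lt (show v - κ / 4 < v by linarith)]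
        with N h1 h2 h3 h4 h5 h6 h7 x hx1 hx2
      rw [Real.dist_eq, lt_min_iff] at h4 h5
      by_cases hx : r / 2 ≤ |x - z.re|
      · have h8 := h1 x hx1 hx2 ((min_le_right _ _).trans hx) (u N).im h5.1
        have h9 : |x - (u N).re| ≤ b - a + 1 := by
          have h10 : |x - (u N).re| ≤ |x - z.re| + |z.re - (u N).re| := abs_sub_le _ _ _
          have h11 : |x - z.re| ≤ b - a := by
            rw [abs_le]; constructor <;> linarith
          rw [abs_sub_comm z.re] at h10
          linarith [h4.1]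
        have h10 : (x - (u N).re) ^ 2 ≤ (b - a + 1) ^ 2 := by
          rw [← sq_abs (x - (u N).re)]
          exact pow_le_pow_left₀ (abs_nonneg _) h9 2
        nlinarith
      · push Not at hx
        have hw : (x : ℂ) + (u N).im * Complex.I ∈ ball z r := by
          rw [mem_ball, dist_eq_norm]
          have e1 : (x : ℂ) + (u N).im * Complex.I - z = ((x - z.re : ℝ) : ℂ) +
              (((u N).im - z.im : ℝ) : ℂ) * Complex.I := by
            conv_lhs => rw [← hzeq]
            push_cast
            ring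
          rw [e1]
          refine lt_of_le_of_lt (norm_add_le _ _) ?_
          rw [norm_mul, Complex.norm_I, mul_one, Complex.norm_real, Complex.norm_real,
            Real.norm_eq_abs, Real.norm_eq_abs]
          linarith [h5.2]
        have h8 := h2 (u N) h6 _ hw h3
        have e1 : (x : ℂ) + (u N).im * Complex.I - u N = ((x - (u N).re : ℝ) : ℂ) := sub_eq x _
        rw [e1, Complex.norm_real, Real.norm_eq_abs, sq_abs] at h8
        have h9 := (abs_le.1 ((Complex.abs_re_le_norm _).trans h8)).2
        have e2 : (deriv (deriv Q) z * ((x - (u N).re : ℝ) : ℂ) ^ 2 / 2).re =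
            A.re * (x - (u N).re) ^ 2 / 2 := by
          rw [← hA]
          have : A * ((x - (u N).re : ℝ) : ℂ) ^ 2 / 2 = A * (((x - (u N).re) ^ 2 / 2 : ℝ) : ℂ) := by
            push_cast; ring
          rw [this, Complex.re_mul_ofReal]
          ring
        rw [Complex.sub_re, Complex.sub_re, e2] at h9
        have h10 : 0 ≤ (x - (u N).re) ^ 2 := sq_nonneg _
        have h11 : A.re = -4 * c := by rw [hc]; ring
        rw [h11] at h9
        nlinarith
    set g : ℕ → ℝ → ℂ := fun N x => p N (x + (u N).im * Complex.I) *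
      Complex.exp (N * (q N (x + (u N).im * Complex.I) - q N (u N))) with hg
    set F : ℕ → ℝ → ℂ := fun N t =>
      indicator (Ioc (α N) (β N)) (g N) ((Real.sqrt N)⁻¹ * t + (u N).re) with hF
    have hlimit : Tendsto (fun N => ∫ t, F N t) atTop
        (𝓝 (∫ t : ℝ, P z * Complex.exp (A * (t : ℂ) ^ 2 / 2))) := by
      apply tendsto_integral_filter_of_dominated_convergence
        (bound := fun t : ℝ => Cp * Real.exp (-c' * t ^ 2))
      · -- measurability
        filter_upwards [hα, hβ, hq, hp, hui.eventually (Metric.ball_mem_nhds z.im hρ)]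
          with N h1 h2 h3 h4 h5
        rw [Real.dist_eq] at h5
        have e1 : F N = indicator ((fun t : ℝ => (Real.sqrt N)⁻¹ * t + (u N).re) ⁻¹'
            (Ioc (α N) (β N))) (fun t => g N ((Real.sqrt N)⁻¹ * t + (u N).re)) := by
          ext t
          simp only [hF, indicator]
          rfl
        have hm : MeasurableSet ((fun t : ℝ => (Real.sqrt N)⁻¹ * t + (u N).re) ⁻¹'
            (Ioc (α N) (β N))) := measurableSet_Ioc.preimage (by fun_prop)
        rw [e1, aestronglyMeasurable_indicator_iff hm]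
        apply ContinuousOn.aestronglyMeasurable _ hm
        have hgc : ContinuousOn (g N) (Ioc (α N) (β N)) := by
          have hmaps : MapsTo (fun x : ℝ => (x : ℂ) + (u N).im * Complex.I) (Ioc (α N) (β N)) U := by
            intro x hx
            exact (htube x (h1.1.trans hx.1.le) (hx.2.trans h2.2) _ h5).1
          apply ContinuousOn.mul
          · exact h4.continuousOn.comp (by fun_prop) hmaps
          · apply ContinuousOn.cexp
            apply ContinuousOn.mul continuousOn_const
            apply ContinuousOn.sub _ continuousOn_const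
            exact h3.continuousOn.comp (by fun_prop) hmaps
        exact hgc.comp (by fun_prop) (fun t ht => ht)
      · -- domination
        filter_upwards [hα, hβ, hCp, hquad, hui.eventually (Metric.ball_mem_nhds z.im hρ'),
          eventually_ge_atTop 1] with N h1 h2 h3 h4 h5 h6
        rw [Real.dist_eq] at h5
        refine Eventually.of_forall fun t => ?_
        simp only [hF]
        by_cases ht : (Real.sqrt N)⁻¹ * t + (u N).re ∈ Ioc (α N) (β N)
        · rw [indicator_of_mem ht]
          simp only [hg]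
          set x : ℝ := (Real.sqrt N)⁻¹ * t + (u N).re with hx
          have hxa : a ≤ x := h1.1.trans ht.1.le
          have hxb : x ≤ b := ht.2.trans h2.2
          rw [norm_mul, Complex.norm_exp]
          apply mul_le_mul (h3 x hxa hxb _ h5) _ (Real.exp_pos _).le hCp0.le
          apply Real.exp_le_exp.2
          have h7 := h4 x hxa hxb
          have hN : (1 : ℝ) ≤ N := by exact_mod_cast h6
          have e2 : (N : ℝ) * (x - (u N).re) ^ 2 = t ^ 2 := by
            rw [hx, add_sub_cancel_right]
            exact scale h6 t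
          have e3 : ((N : ℂ) * (q N (x + (u N).im * Complex.I) - q N (u N))).re =
              N * ((q N (x + (u N).im * Complex.I)).re - (q N (u N)).re) := by
            simp
          rw [e3]
          calc _ ≤ (N : ℝ) * (-c' * (x - (u N).re) ^ 2) :=
                mul_le_mul_of_nonneg_left h7 (Nat.cast_nonneg N)
            _ = -c' * ((N : ℝ) * (x - (u N).re) ^ 2) := by ring
            _ = _ := by rw [e2]
        · rw [indicator_of_notMem ht, norm_zero]
          positivity
      · exact (integrable_exp_neg_mul_sq hc'0).const_mul Cp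
      · -- pointwise limit
        refine Eventually.of_forall fun t => ?_
        have hinv : Tendsto (fun N : ℕ => (Real.sqrt N)⁻¹) atTop (𝓝 0) :=
          tendsto_inv_atTop_zero.comp (Real.tendsto_sqrt_atTop.comp tendsto_natCast_atTop_atTop)
        have hx : Tendsto (fun N : ℕ => (Real.sqrt N)⁻¹ * t + (u N).re) atTop (𝓝 z.re) := by
          simpa using (hinv.mul_const t).add hur
        have hw : Tendsto (fun N : ℕ => (((Real.sqrt N)⁻¹ * t + (u N).re : ℝ) : ℂ) +
            (u N).im * Complex.I) atTop (𝓝 z) := by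
          have h1 := ((Complex.continuous_ofReal.tendsto _).comp hx).add
            (((Complex.continuous_ofReal.tendsto _).comp hui).mul_const Complex.I)
          rw [hzeq] at h1
          exact h1
        have hev : ∀ᶠ N in atTop, F N t = p N ((((Real.sqrt N)⁻¹ * t + (u N).re : ℝ) : ℂ) +
            (u N).im * Complex.I) * Complex.exp (N * (q N ((((Real.sqrt N)⁻¹ * t + (u N).re : ℝ) : ℂ) +
            (u N).im * Complex.I) - q N (u N))) := by
          filter_upwards [hα, hβ, hx.eventually_const_lt (show z.re - δ < z.re by linarith),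
            hx.eventually_lt_const (show z.re < z.re + δ by linarith)] with N h1 h2 h3 h4
          simp only [hF]
          have h5 : (Real.sqrt N)⁻¹ * t + (u N).re ∈ Ioc (α N) (β N) :=
            ⟨by linarith [h1.2], by linarith [h2.1]⟩
          rw [indicator_of_mem h5]
        rw [tendsto_congr' hev]
        apply Tendsto.mul
        · apply hpP.tendstoLocallyUniformlyOn.tendsto_comp (hP.continuousOn z hzU) hzU
          rw [tendsto_nhdsWithin_iff]
          exact ⟨hw, hw.eventually (hU.mem_nhds hzU)⟩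
        · apply (Complex.continuous_exp.tendsto _).comp
          rw [Metric.tendsto_nhds]
          intro ε hε
          obtain ⟨r', hr', -, htay'⟩ := taylor2 hU hq hQ hlu hzU
            (show 0 < ε / (t ^ 2 + 1) by positivity)
          filter_upwards [htay', hucr, hw.eventually (Metric.ball_mem_nhds z hr'),
            hu.eventually (Metric.ball_mem_nhds z hr'), eventually_ge_atTop 1] with N h1 h2 h3 h4 h5
          have h6 := h1 (u N) h4 _ h3 h2
          have hN : (1 : ℝ) ≤ N := by exact_mod_cast h5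
          have e1 : (((Real.sqrt N)⁻¹ * t + (u N).re : ℝ) : ℂ) + (u N).im * Complex.I - u N =
              (((Real.sqrt N)⁻¹ * t : ℝ) : ℂ) := by
            rw [sub_eq, add_sub_cancel_right]
          have e2 : (N : ℝ) * ((Real.sqrt N)⁻¹ * t) ^ 2 = t ^ 2 := scale h5 t
          rw [e1, Complex.norm_real, Real.norm_eq_abs, sq_abs] at h6
          rw [dist_eq_norm]
          have e3 : (N : ℂ) * (q N ((((Real.sqrt N)⁻¹ * t + (u N).re : ℝ) : ℂ) +
              (u N).im * Complex.I) - q N (u N)) - A * (t : ℂ) ^ 2 / 2 =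
              (N : ℂ) * (q N ((((Real.sqrt N)⁻¹ * t + (u N).re : ℝ) : ℂ) +
              (u N).im * Complex.I) - q N (u N) -
              deriv (deriv Q) z * (((Real.sqrt N)⁻¹ * t : ℝ) : ℂ) ^ 2 / 2) := by
            have : (t : ℂ) ^ 2 = (N : ℂ) * (((Real.sqrt N)⁻¹ * t : ℝ) : ℂ) ^ 2 := by
              exact_mod_cast e2.symm
            rw [this, ← hA]
            ring
          rw [e3, norm_mul, Complex.norm_natCast]
          calc _ ≤ (N : ℝ) * (ε / (t ^ 2 + 1) * ((Real.sqrt N)⁻¹ * t) ^ 2) :=
                mul_le_mul_of_nonneg_left h6 (Nat.cast_nonneg N)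
            _ = ε / (t ^ 2 + 1) * ((N : ℝ) * ((Real.sqrt N)⁻¹ * t) ^ 2) := by ring
            _ = ε * (t ^ 2 / (t ^ 2 + 1)) := by rw [e2]; ring
            _ < ε * 1 := by
              apply mul_lt_mul_of_pos_left _ hε
              rw [div_lt_one (by positivity)]
              linarith
            _ = ε := mul_one ε
    have hL : (∫ t : ℝ, P z * Complex.exp (A * (t : ℂ) ^ 2 / 2)) ≠ 0 := by
      rw [integral_const_mul]
      apply mul_ne_zero hPz
      have h1 := integral_gaussian_complex (b := -A / 2) (by simp; linarith)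
      have h2 : ∀ t : ℝ, Complex.exp (A * (t : ℂ) ^ 2 / 2) =
          Complex.exp (-(-A / 2) * (t : ℂ) ^ 2) := by
        intro t; congr 1; ring
      simp_rw [h2]
      rw [h1]
      rw [Complex.cpow_ne_zero_iff]
      left
      apply div_ne_zero
      · exact_mod_cast Real.pi_ne_zero
      · intro h
        apply hA0
        have : A = -2 * (-A / 2) := by ring
        rw [this, h, mul_zero]
    refine gro_of_lim (s := fun N => q N (u N)) hL hqu ?_
    refine hlimit.congr' ?_
    filter_upwards [hα, hβ, eventually_ge_atTop 1] with N h1 h2 h3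
    have hN : (1 : ℝ) ≤ N := by exact_mod_cast h3
    have hs0 : 0 < Real.sqrt N := Real.sqrt_pos.2 (by positivity)
    have e1 : (∫ t, F N t) = |((Real.sqrt N)⁻¹)⁻¹| •
        ∫ y, indicator (Ioc (α N) (β N)) (g N) (y + (u N).re) :=
      Measure.integral_comp_mul_left (fun y => indicator (Ioc (α N) (β N)) (g N) (y + (u N).re)) _
    rw [e1, inv_inv, abs_of_pos hs0, integral_add_right_eq_self, integral_indicator
      measurableSet_Ioc, ← intervalIntegral.integral_of_le (by linarith)]
    rw [Complex.real_smul]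
    congr 1
    simp only [hI1, hg]
    rw [← intervalIntegral.integral_const_mul]
    apply intervalIntegral.integral_congr
    intro x _
    simp only
    rw [mul_sub, sub_eq_add_neg, Complex.exp_add]
    ring
  have := hG1.add hdiff
  refine fun ε hε => ?_
  filter_upwards [this ε hε] with N h
  have e1 : I1 N + (I0 N - I1 N) = I0 N := by ring
  rwa [e1] at h

theorem lapc : Pool.Agent.W711.HT.S_LAPC := by
  intro q p Q P U a b z hU hq hQ hqQ hp hP hpP haz hzb hK hcr hneg hPz hmax
  refine (core q p Q P U a b z hU hq hQ hqQ hp hP hpP haz hzb hK hcr hneg hPz hmax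
    (δ := min (z.re - a) (b - z.re)) (lt_min (by linarith) (by linarith)) (α := fun _ => a)
    (β := fun _ => b) ?_ ?_).log
  · refine Eventually.of_forall fun N => ⟨le_rfl, ?_⟩
    have := min_le_left (z.re - a) (b - z.re)
    linarith
  · refine Eventually.of_forall fun N => ⟨?_, le_rfl⟩
    have := min_le_right (z.re - a) (b - z.re)
    linarith

end Pool.Agent.W588.HT
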