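import Mathlib

/-! Uniformly convergent analytic functions near a nondegenerate critical point. -/

set_option autoImplicit false

namespace Pool.Agent.W588.HT

open Filter Topology Metric Set

/-- extraction of a convergent sequence of solutions -/
theorem seq_of_ev {P : ℕ → ℂ → Prop} {z : ℂ}
    (h : ∀ r : ℝ, 0 < r → ∀ᶠ N in atTop, ∃ w, dist w z < r ∧ P N w) :
    ∃ u : ℕ → ℂ, Tendsto u atTop (𝓝 z) ∧ ∀ᶠ N in atTop, P N (u N) := by
  classical
  have key : ∀ N : ℕ, {w | P N w}.Nonempty →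
      ∃ w ∈ {w | P N w}, dist z w < infDist z {w | P N w} + 1 / ((N : ℝ) + 1) := by
    intro N hN
    apply (infDist_lt_iff hN).1
    have : (0 : ℝ) < 1 / ((N : ℝ) + 1) := by positivity
    linarith
  let u : ℕ → ℂ := fun N => if hN : {w | P N w}.Nonempty then (key N hN).choose else z
  have hu : ∀ N, {w | P N w}.Nonempty →
      P N (u N) ∧ dist z (u N) < infDist z {w | P N w} + 1 / ((N : ℝ) + 1) := by
    intro N hN
    have := (key N hN).choose_spec
    simp only [u, dif_pos hN]
    exact this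
  refine ⟨u, ?_, ?_⟩
  · rw [Metric.tendsto_nhds]
    intro ε hε
    have h2 : ∀ᶠ N : ℕ in atTop, 1 / ((N : ℝ) + 1) < ε / 2 :=
      tendsto_one_div_add_atTop_nhds_zero_nat.eventually_lt_const (by positivity)
    filter_upwards [h (ε / 2) (by positivity), h2] with N h1 h2
    obtain ⟨w, hw, hP⟩ := h1
    have h3 := (hu N ⟨w, hP⟩).2
    have h4 : infDist z {w | P N w} ≤ dist z w := infDist_le_dist_of_mem hP
    rw [dist_comm] at h4
    rw [dist_comm]
    linarith
  · filter_upwards [h 1 one_pos] with N h1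
    obtain ⟨w, hw, hP⟩ := h1
    exact (hu N ⟨w, hP⟩).1

/-- a simple zero persists -/
theorem exists_zero {f : ℕ → ℂ → ℂ} {F : ℂ → ℂ} {U : Set ℂ} {z F' : ℂ} (hU : IsOpen U)
    (hf : ∀ᶠ N in atTop, DifferentiableOn ℂ (f N) U) (hF : DifferentiableOn ℂ F U)
    (hlim : TendstoLocallyUniformlyOn f F atTop U) (hz : z ∈ U) (h0 : F z = 0)
    (hd : HasDerivAt F F' z) (hF' : F' ≠ 0) :
    ∀ r : ℝ, 0 < r → ∀ᶠ N in atTop, ∃ w, dist w z < r ∧ f N w = 0 := by
  intro r hr
  have h1 : ∀ᶠ w in 𝓝[≠] z, F w ≠ 0 := hd.eventually_ne hF'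
  obtain ⟨r1, hr1, hb1⟩ := Metric.mem_nhdsWithin_iff.1 h1
  obtain ⟨r2, hr2, hb2⟩ := Metric.isOpen_iff.1 hU z hz
  set s : ℝ := min r (min r1 r2) / 2 with hs
  have hs0 : 0 < s := by positivity
  have hsr : s < r := by
    have : min r (min r1 r2) ≤ r := min_le_left _ _
    rw [hs]; linarith
  have hsr1 : s < r1 := by
    have : min r (min r1 r2) ≤ r1 := (min_le_right _ _).trans (min_le_left _ _)
    rw [hs]; linarith
  have hsr2 : s < r2 := by
    have : min r (min r1 r2) ≤ r2 := (min_le_right _ _).trans (min_le_right _ _)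
    rw [hs]; linarith
  have hsub : closedBall z s ⊆ U := fun w hw => hb2 (lt_of_le_of_lt hw hsr2)
  have hcpt : IsCompact (sphere z s) := isCompact_sphere z s
  have hne : (sphere z s).Nonempty := (NormedSpace.sphere_nonempty).2 hs0.le
  have hc : ContinuousOn (fun w => ‖F w‖) (sphere z s) :=
    (hF.continuousOn.mono (sphere_subset_closedBall.trans hsub)).norm
  obtain ⟨w0, hw0, hmin⟩ := hcpt.exists_isMinOn hne hc
  have hm : 0 < ‖F w0‖ := by
    rw [norm_pos_iff]
    refine hb1 ⟨?_, ?_⟩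
    · rw [mem_ball]; rw [mem_sphere] at hw0; linarith
    · intro h
      rw [mem_singleton_iff] at h
      rw [h, mem_sphere, dist_self] at hw0
      linarith
  set m : ℝ := ‖F w0‖ with hmdef
  have hu := (tendstoLocallyUniformlyOn_iff_tendstoUniformlyOn_of_compact
    (isCompact_closedBall z s)).1 (hlim.mono hsub)
  rw [Metric.tendstoUniformlyOn_iff] at hu
  filter_upwards [hu (m / 3) (by positivity), hf] with N hN hdN
  by_contra hcon
  push Not at hcon
  have hnz : ∀ w ∈ closedBall z s, f N w ≠ 0 := by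
    intro w hw
    exact hcon w (lt_of_le_of_lt hw hsr)
  have hdiff : DiffContOnCl ℂ (fun w => (f N w)⁻¹) (ball z s) := by
    apply DifferentiableOn.diffContOnCl
    rw [closure_ball z hs0.ne']
    exact (hdN.mono hsub).inv hnz
  have h2 : ∀ w ∈ frontier (ball z s), ‖(f N w)⁻¹‖ ≤ 3 / (2 * m) := by
    intro w hw
    rw [frontier_ball z hs0.ne'] at hw
    have h3 := hN w (sphere_subset_closedBall hw)
    rw [dist_eq_norm] at h3
    have h4 : m ≤ ‖F w‖ := hmin hw
    have h5 : ‖F w‖ ≤ ‖F w - f N w‖ + ‖f N w‖ := by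
      have := norm_add_le (F w - f N w) (f N w)
      simpa using this
    rw [norm_inv, show 3 / (2 * m) = (2 * m / 3)⁻¹ by rw [inv_div]]
    exact inv_anti₀ (by positivity) (by linarith)
  have h3 := Complex.norm_le_of_forall_mem_frontier_norm_le isBounded_ball hdiff h2
    (subset_closure (mem_ball_self hs0))
  have h4 := hN z (mem_closedBall_self hs0.le)
  rw [h0, dist_zero_left] at h4
  rw [norm_inv] at h3
  have h5 : 0 < ‖f N z‖ := norm_pos_iff.2 (hnz z (mem_closedBall_self hs0.le))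
  have h6 : (m / 3)⁻¹ < ‖f N z‖⁻¹ := (inv_lt_inv₀ (by positivity) h5).2 h4
  rw [inv_div] at h6
  have h7 : 3 / (2 * m) ≤ 3 / m := by
    apply div_le_div_of_nonneg_left (by norm_num) hm
    linarith
  linarith

/-- uniform second order Taylor formula at the critical points -/
theorem taylor2 {q : ℕ → ℂ → ℂ} {Q : ℂ → ℂ} {U : Set ℂ} {z : ℂ} (hU : IsOpen U)
    (hq : ∀ᶠ N in atTop, DifferentiableOn ℂ (q N) U) (hQ : DifferentiableOn ℂ Q U)
    (hlim : TendstoLocallyUniformlyOn q Q atTop U) (hz : z ∈ U) {ε : ℝ} (hε : 0 < ε) :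
    ∃ r : ℝ, 0 < r ∧ ball z r ⊆ U ∧ ∀ᶠ N in atTop, ∀ ζ ∈ ball z r, ∀ w ∈ ball z r,
      deriv (q N) ζ = 0 →
      ‖q N w - q N ζ - deriv (deriv Q) z * (w - ζ) ^ 2 / 2‖ ≤ ε * ‖w - ζ‖ ^ 2 := by
  have hd1 := hlim.deriv hq hU
  have hq1 : ∀ᶠ N in atTop, DifferentiableOn ℂ ((deriv ∘ q) N) U := by
    filter_upwards [hq] with N h
    exact h.deriv hU
  have hd2 := hd1.deriv hq1 hU
  have hQ1 : DifferentiableOn ℂ (deriv Q) U := hQ.deriv hU
  have hQ2 : DifferentiableOn ℂ (deriv (deriv Q)) U := hQ1.deriv hU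
  obtain ⟨r2, hr2, hb2⟩ := Metric.isOpen_iff.1 hU z hz
  have hc : ContinuousAt (deriv (deriv Q)) z := (hQ2 z hz).continuousWithinAt.continuousAt
    (hU.mem_nhds hz)
  obtain ⟨r1, hr1, hb1⟩ := Metric.continuousAt_iff.1 hc (ε / 2) (by positivity)
  set s : ℝ := min r1 r2 / 2 with hs
  have hs0 : 0 < s := by positivity
  have hsr1 : s < r1 := by
    have : min r1 r2 ≤ r1 := min_le_left _ _
    rw [hs]; linarith
  have hsr2 : s < r2 := by
    have : min r1 r2 ≤ r2 := min_le_right _ _
    rw [hs]; linarith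
  have hsub : closedBall z s ⊆ U := fun w hw => hb2 (lt_of_le_of_lt hw hsr2)
  have hu := (tendstoLocallyUniformlyOn_iff_tendstoUniformlyOn_of_compact
    (isCompact_closedBall z s)).1 (hd2.mono hsub)
  rw [Metric.tendstoUniformlyOn_iff] at hu
  refine ⟨s, hs0, ball_subset_closedBall.trans hsub, ?_⟩
  filter_upwards [hu (ε / 2) (by positivity), hq] with N hN hdN ζ hζ w hw hcr
  have hbU : ball z s ⊆ U := ball_subset_closedBall.trans hsub
  have hdq : ∀ x ∈ ball z s, DifferentiableAt ℂ (q N) x := fun x hx =>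
    (hdN x (hbU hx)).differentiableAt (hU.mem_nhds (hbU hx))
  have hdq1 : ∀ x ∈ ball z s, DifferentiableAt ℂ (deriv (q N)) x := fun x hx =>
    ((hdN.deriv hU) x (hbU hx)).differentiableAt (hU.mem_nhds (hbU hx))
  set A : ℂ := deriv (deriv Q) z with hA
  have h2 : ∀ x ∈ ball z s, ‖deriv (deriv (q N)) x - A‖ ≤ ε := by
    intro x hx
    have h3 := hN x (ball_subset_closedBall hx)
    have h4 := hb1 (x := x) (lt_trans hx hsr1)
    rw [dist_eq_norm] at h3 h4
    have h5 : deriv (deriv (q N)) x - A = -(deriv (deriv Q) x - (deriv ∘ (deriv ∘ q)) N x) +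
      (deriv (deriv Q) x - A) := by simp only [Function.comp]; ring
    rw [h5]
    refine (norm_add_le _ _).trans ?_
    rw [norm_neg]
    linarith
  -- first derivative
  have h3 : ∀ x ∈ ball z s, ‖deriv (q N) x - A * (x - ζ)‖ ≤ ε * ‖x - ζ‖ := by
    intro x hx
    have h4 := (convex_ball z s).norm_image_sub_le_of_norm_hasDerivWithin_le
      (f := fun x => deriv (q N) x - A * (x - ζ)) (f' := fun x => deriv (deriv (q N)) x - A) (C := ε)
      (fun y hy => by
        have h5 := (hdq1 y hy).hasDerivAt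
        have h6 : HasDerivAt (fun x => A * (x - ζ)) A y := by
          simpa using ((hasDerivAt_id y).sub_const ζ).const_mul A
        exact (h5.sub h6).hasDerivWithinAt) h2 hζ hx
    simpa [hcr] using h4
  -- second step on the segment
  set R : ℝ := ‖w - ζ‖ with hR
  have hconv : Convex ℝ (ball z s ∩ closedBall ζ R) := (convex_ball z s).inter (convex_closedBall ζ R)
  have h4 := hconv.norm_image_sub_le_of_norm_hasDerivWithin_le
      (f := fun x => q N x - A * (x - ζ) ^ 2 / 2) (f' := fun x => deriv (q N) x - A * (x - ζ))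
      (C := ε * R) (x := ζ) (y := w)
      (fun y hy => by
        have h5 := (hdq y hy.1).hasDerivAt
        have h6 : HasDerivAt (fun x => A * (x - ζ) ^ 2 / 2) (A * (y - ζ)) y := by
          have h7 := ((((hasDerivAt_id y).sub_const ζ).pow 2).const_mul A).div_const 2
          refine h7.congr_deriv ?_
          simp
          ring
        exact (h5.sub h6).hasDerivWithinAt)
      (fun y hy => by
        refine (h3 y hy.1).trans ?_
        have : ‖y - ζ‖ ≤ R := by
          have := hy.2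
          rwa [mem_closedBall, dist_eq_norm] at this
        exact mul_le_mul_of_nonneg_left this hε.le)
      ⟨hζ, mem_closedBall_self (norm_nonneg _)⟩
      ⟨hw, by rw [mem_closedBall, dist_eq_norm]⟩
  have h5 : q N w - q N ζ - A * (w - ζ) ^ 2 / 2 =
      (q N w - A * (w - ζ) ^ 2 / 2) - (q N ζ - A * (ζ - ζ) ^ 2 / 2) := by ring
  rw [h5]
  refine h4.trans (le_of_eq ?_)
  rw [← hR]
  ring

end Pool.Agent.W588.HT
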