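import Pool.Agent.W711.HT.Stm
import Pool.Agent.W588.HT.Crit

/-! The Laplace method on a horizontal segment through a critical point. -/

set_option autoImplicit false

namespace Pool.Agent.W588.HT

open Filter Topology Metric Set MeasureTheory
open scoped Real Interval

/-- exponential growth rate `v` -/
def Gro (I : ℕ → ℂ) (v : ℝ) : Prop := ∀ ε : ℝ, 0 < ε → ∀ᶠ N : ℕ in atTop,
  Real.exp (N * (v - ε)) ≤ ‖I N‖ ∧ ‖I N‖ ≤ Real.exp (N * (v + ε))

/-- exponentially smaller than `e^{N v}` -/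
def Neg (E : ℕ → ℂ) (v : ℝ) : Prop := ∃ κ : ℝ, 0 < κ ∧ ∀ᶠ N : ℕ in atTop,
  ‖E N‖ ≤ Real.exp (N * (v - κ))

theorem poly_le_exp (C : ℝ) {κ : ℝ} (hκ : 0 < κ) :
    ∀ᶠ N : ℕ in atTop, C * (N + 1) ≤ Real.exp (N * κ) := by
  have h1 : ∀ᶠ N : ℕ in atTop, 4 * |C| / κ ^ 2 ≤ (N : ℝ) :=
    tendsto_natCast_atTop_atTop.eventually_ge_atTop _
  filter_upwards [h1, eventually_ge_atTop 1] with N h1 h2
  have h3 : (1 : ℝ) ≤ N := by exact_mod_cast h2
  have h4 := Real.quadratic_le_exp_of_nonneg (x := N * κ) (by positivity)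
  have h5 : 4 * |C| ≤ N * κ ^ 2 := by
    rwa [div_le_iff₀ (by positivity)] at h1
  have h6 : C ≤ |C| := le_abs_self C
  have h7 : 0 ≤ |C| := abs_nonneg C
  have h8 : C * (N + 1) ≤ |C| * (2 * N) := by
    have : C * (N + 1) ≤ |C| * (N + 1) := mul_le_mul_of_nonneg_right h6 (by positivity)
    nlinarith
  have h9 : |C| * (2 * N) ≤ (N * κ) ^ 2 / 2 := by nlinarith
  have h10 : 0 ≤ N * κ := by positivity
  linarith

theorem Gro.log {I : ℕ → ℂ} {v : ℝ} (h : Gro I v) :
    Tendsto (fun N : ℕ => Real.log ‖I N‖ / N) atTop (𝓝 v) := by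
  rw [Metric.tendsto_nhds]
  intro ε hε
  filter_upwards [h (ε / 2) (by positivity), eventually_ge_atTop 1] with N h1 h2
  have h3 : (0 : ℝ) < N := by exact_mod_cast h2
  have h4 : 0 < ‖I N‖ := lt_of_lt_of_le (Real.exp_pos _) h1.1
  have h5 : N * (v - ε / 2) ≤ Real.log ‖I N‖ := (Real.le_log_iff_exp_le h4).2 h1.1
  have h6 : Real.log ‖I N‖ ≤ N * (v + ε / 2) := (Real.log_le_iff_le_exp h4).2 h1.2
  rw [Real.dist_eq, abs_lt]
  constructor
  · rw [lt_sub_iff_add_lt, lt_div_iff₀ h3]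
    nlinarith
  · rw [sub_lt_iff_lt_add, div_lt_iff₀ h3]
    nlinarith

theorem Gro.add {I E : ℕ → ℂ} {v : ℝ} (h : Gro I v) (hE : Neg E v) :
    Gro (fun N => I N + E N) v := by
  obtain ⟨κ, hκ, hE⟩ := hE
  intro ε hε
  set ε' : ℝ := min ε κ / 2 with hε'
  have h0 : 0 < ε' := by positivity
  have h01 : ε' ≤ ε / 2 := by
    have := min_le_left ε κ
    rw [hε']; linarith
  have h02 : ε' ≤ κ / 2 := by
    have := min_le_right ε κ
    rw [hε']; linarith
  have hp := poly_le_exp 1 (κ := κ / 2) (by positivity)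
  have hp2 := poly_le_exp 1 (κ := ε / 2) (by positivity)
  filter_upwards [h ε' h0, hE, hp, hp2, eventually_ge_atTop 1] with N h1 h2 h3 h3' h4
  have h5 : (1 : ℝ) ≤ N := by exact_mod_cast h4
  have h6 : ‖E N‖ ≤ Real.exp (N * (v - ε')) / 2 := by
    have : Real.exp (N * (v - ε')) = Real.exp (N * (v - κ)) * Real.exp (N * (κ - ε')) := by
      rw [← Real.exp_add]; congr 1; ring
    have h7 : (2 : ℝ) ≤ Real.exp (N * (κ - ε')) := by
      have : Real.exp (N * (κ / 2)) ≤ Real.exp (N * (κ - ε')) := by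
        apply Real.exp_le_exp.2
        apply mul_le_mul_of_nonneg_left _ (by positivity)
        linarith
      linarith
    have h8 : 0 < Real.exp (N * (v - κ)) := Real.exp_pos _
    rw [this]
    nlinarith
  have h7 : Real.exp (N * (v - ε)) ≤ Real.exp (N * (v - ε')) / 2 := by
    have : Real.exp (N * (v - ε')) = Real.exp (N * (v - ε)) * Real.exp (N * (ε - ε')) := by
      rw [← Real.exp_add]; congr 1; ring
    have h7 : (2 : ℝ) ≤ Real.exp (N * (ε - ε')) := by
      have : Real.exp (N * (ε / 2)) ≤ Real.exp (N * (ε - ε')) := by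
        apply Real.exp_le_exp.2
        apply mul_le_mul_of_nonneg_left _ (by positivity)
        linarith
      linarith
    have h8 : 0 < Real.exp (N * (v - ε)) := Real.exp_pos _
    rw [this]
    nlinarith
  have h8 : Real.exp (N * (v + ε')) * 2 ≤ Real.exp (N * (v + ε)) := by
    have : Real.exp (N * (v + ε)) = Real.exp (N * (v + ε')) * Real.exp (N * (ε - ε')) := by
      rw [← Real.exp_add]; congr 1; ring
    have h7 : (2 : ℝ) ≤ Real.exp (N * (ε - ε')) := by
      have : Real.exp (N * (ε / 2)) ≤ Real.exp (N * (ε - ε')) := by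
        apply Real.exp_le_exp.2
        apply mul_le_mul_of_nonneg_left _ (by positivity)
        linarith
      linarith
    rw [this]
    exact mul_le_mul_of_nonneg_left h7 (Real.exp_pos _).le
  have h9 : Real.exp (N * (v - ε')) ≤ Real.exp (N * (v + ε')) := by
    apply Real.exp_le_exp.2
    apply mul_le_mul_of_nonneg_left _ (by positivity)
    linarith
  constructor
  · have h10 : ‖I N‖ ≤ ‖I N + E N‖ + ‖E N‖ := by
      have := norm_sub_le (I N + E N) (E N)
      simpa using this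
    linarith [h1.1]
  · have h10 := norm_add_le (I N) (E N)
    linarith [h1.2, Real.exp_pos (N * (v + ε'))]

theorem Neg.add {E E' : ℕ → ℂ} {v : ℝ} (h : Neg E v) (h' : Neg E' v) :
    Neg (fun N => E N + E' N) v := by
  obtain ⟨κ, hκ, h⟩ := h
  obtain ⟨κ', hκ', h'⟩ := h'
  refine ⟨min κ κ' / 2, by positivity, ?_⟩
  set μ := min κ κ' with hμ
  have hμ0 : 0 < μ := by positivity
  filter_upwards [h, h', poly_le_exp 1 (κ := μ / 2) (by positivity), eventually_ge_atTop 1]
    with N h1 h2 h3 h4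
  have h5 : (1 : ℝ) ≤ N := by exact_mod_cast h4
  have e1 : Real.exp (N * (v - κ)) ≤ Real.exp (N * (v - μ)) := by
    apply Real.exp_le_exp.2
    apply mul_le_mul_of_nonneg_left _ (by positivity)
    have := min_le_left κ κ'
    linarith
  have e2 : Real.exp (N * (v - κ')) ≤ Real.exp (N * (v - μ)) := by
    apply Real.exp_le_exp.2
    apply mul_le_mul_of_nonneg_left _ (by positivity)
    have := min_le_right κ κ'
    linarith
  have e3 : Real.exp (N * (v - μ / 2)) = Real.exp (N * (v - μ)) * Real.exp (N * (μ / 2)) := by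
    rw [← Real.exp_add]; congr 1; ring
  have h10 := norm_add_le (E N) (E' N)
  have h11 := Real.exp_pos (N * (v - μ))
  rw [e3]
  nlinarith

theorem neg_of_bound {E : ℕ → ℂ} {v C κ : ℝ} (hκ : 0 < κ)
    (h : ∀ᶠ N : ℕ in atTop, ‖E N‖ ≤ C * (N + 1) * Real.exp (N * (v - κ))) : Neg E v := by
  refine ⟨κ / 2, by positivity, ?_⟩
  filter_upwards [h, poly_le_exp C (κ := κ / 2) (by positivity)] with N h1 h2
  have e3 : Real.exp (N * (v - κ / 2)) = Real.exp (N * (κ / 2)) * Real.exp (N * (v - κ)) := by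
    rw [← Real.exp_add]; congr 1; ring
  rw [e3]
  exact h1.trans (mul_le_mul_of_nonneg_right h2 (Real.exp_pos _).le)

theorem Gro.natMul {I : ℕ → ℂ} {v : ℝ} (h : Gro I v) : Gro (fun N => (N : ℂ) * I N) v := by
  intro ε hε
  filter_upwards [h (ε / 2) (by positivity), poly_le_exp 1 (κ := ε / 2) (by positivity),
    eventually_ge_atTop 1] with N h1 h2 h3
  have h5 : (1 : ℝ) ≤ N := by exact_mod_cast h3
  have e0 : ‖(N : ℂ) * I N‖ = N * ‖I N‖ := by simp
  simp only [e0]
  constructor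
  · have e1 : Real.exp (N * (v - ε)) ≤ Real.exp (N * (v - ε / 2)) := by
      apply Real.exp_le_exp.2
      apply mul_le_mul_of_nonneg_left _ (by positivity)
      linarith
    have := norm_nonneg (I N)
    nlinarith [h1.1]
  · have e3 : Real.exp (N * (v + ε)) = Real.exp (N * (ε / 2)) * Real.exp (N * (v + ε / 2)) := by
      rw [← Real.exp_add]; congr 1; ring
    rw [e3]
    exact mul_le_mul (by linarith) h1.2 (norm_nonneg _) (Real.exp_pos _).le

theorem Neg.natMul {I : ℕ → ℂ} {v : ℝ} (h : Neg I v) : Neg (fun N => (N : ℂ) * I N) v := by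
  obtain ⟨κ, hκ, h⟩ := h
  apply neg_of_bound (C := 1) hκ
  filter_upwards [h] with N h1
  have e0 : ‖(N : ℂ) * I N‖ = N * ‖I N‖ := by simp
  simp only [e0]
  have h2 : (0 : ℝ) ≤ N := Nat.cast_nonneg N
  exact mul_le_mul (by linarith) h1 (norm_nonneg _) (by positivity)

/-- from a normalised limit to the growth rate -/
theorem gro_of_lim {I : ℕ → ℂ} {s : ℕ → ℂ} {L t : ℂ} (hL : L ≠ 0) (hs : Tendsto s atTop (𝓝 t))
    (h : Tendsto (fun N : ℕ => (Real.sqrt N : ℂ) * (Complex.exp (-(N * s N)) * I N)) atTop (𝓝 L)) :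
    Gro I t.re := by
  intro ε hε
  have hL' : 0 < ‖L‖ := norm_pos_iff.2 hL
  have h1 : ∀ᶠ N : ℕ in atTop, ‖L‖ / 2 <
      ‖(Real.sqrt N : ℂ) * (Complex.exp (-(N * s N)) * I N)‖ :=
    h.norm.eventually_const_lt (by linarith)
  have h2 : ∀ᶠ N : ℕ in atTop, ‖(Real.sqrt N : ℂ) * (Complex.exp (-(N * s N)) * I N)‖ <
      2 * ‖L‖ := h.norm.eventually_lt_const (by linarith)
  have hsr : Tendsto (fun N => (s N).re) atTop (𝓝 t.re) :=
    (Complex.continuous_re.tendsto t).comp hs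
  have h3 : ∀ᶠ N : ℕ in atTop, t.re - ε / 2 < (s N).re := hsr.eventually_const_lt (by linarith)
  have h4 : ∀ᶠ N : ℕ in atTop, (s N).re < t.re + ε / 2 := hsr.eventually_lt_const (by linarith)
  filter_upwards [h1, h2, h3, h4, poly_le_exp (2 / ‖L‖) (κ := ε / 2) (by positivity),
    poly_le_exp (2 * ‖L‖) (κ := ε / 2) (by positivity), eventually_ge_atTop 1]
    with N h1 h2 h3 h4 h5 h6 h7
  have h8 : (1 : ℝ) ≤ N := by exact_mod_cast h7
  have h9 : (1 : ℝ) ≤ Real.sqrt N := Real.one_le_sqrt.2 h8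
  have h10 : Real.sqrt N ≤ N + 1 := by
    have h11 := Real.sq_sqrt (show (0:ℝ) ≤ N by positivity)
    nlinarith
  have e0 : ‖(Real.sqrt N : ℂ) * (Complex.exp (-(N * s N)) * I N)‖ =
      Real.sqrt N * (Real.exp (-(N * (s N).re)) * ‖I N‖) := by
    rw [norm_mul, norm_mul, Complex.norm_exp, Complex.norm_real, Real.norm_eq_abs,
      abs_of_nonneg (Real.sqrt_nonneg _)]
    simp
  rw [e0] at h1 h2
  have e1 : ‖I N‖ = Real.exp (N * (s N).re) * (Real.exp (-(N * (s N).re)) * ‖I N‖) := by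
    rw [← mul_assoc, ← Real.exp_add]; simp
  set T : ℝ := Real.exp (-(N * (s N).re)) * ‖I N‖ with hT
  have hT0 : 0 ≤ T := by positivity
  rw [e1]
  constructor
  · have e2 : Real.exp (N * (t.re - ε)) ≤ Real.exp (N * (s N).re) * Real.exp (-(N * (ε / 2))) := by
      rw [← Real.exp_add]
      apply Real.exp_le_exp.2
      nlinarith
    refine e2.trans (mul_le_mul_of_nonneg_left ?_ (Real.exp_pos _).le)
    rw [Real.exp_neg]
    have h12 : ‖L‖ / 2 < (N + 1) * T := lt_of_lt_of_le h1 (mul_le_mul_of_nonneg_right h10 hT0)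
    have h13 : 1 ≤ 2 / ‖L‖ * ((N + 1) * T) := by
      rw [div_mul_eq_mul_div, le_div_iff₀ hL']
      linarith
    have h14 : 1 ≤ Real.exp (N * (ε / 2)) * T := by
      calc (1 : ℝ) ≤ 2 / ‖L‖ * ((N + 1) * T) := h13
        _ = 2 / ‖L‖ * (N + 1) * T := by ring
        _ ≤ _ := mul_le_mul_of_nonneg_right h5 hT0
    rw [inv_le_iff_one_le_mul₀ (Real.exp_pos _)]
    linarith
  · have e2 : Real.exp (N * (s N).re) * Real.exp (N * (ε / 2)) ≤ Real.exp (N * (t.re + ε)) := by
      rw [← Real.exp_add]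
      apply Real.exp_le_exp.2
      nlinarith
    refine le_trans (mul_le_mul_of_nonneg_left ?_ (Real.exp_pos _).le) e2
    nlinarith

end Pool.Agent.W588.HT
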