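import Pool.Agent.W588.HT.Core
import Pool.Agent.W588.HT.Box

/-! The Laplace method for a sum over integers. -/

set_option autoImplicit false

namespace Pool.Agent.W588.HT

open Filter Topology Metric Set MeasureTheory Pool.Agent.W709.VC
open scoped Real Interval

theorem cgap {X : Type*} [TopologicalSpace X] {K : Set X} (hK : IsCompact K) {φ : X → ℝ} {v : ℝ}
    (hφ : ContinuousOn φ K) (h : ∀ x ∈ K, φ x < v) :
    ∃ κ : ℝ, 0 < κ ∧ ∀ x ∈ K, φ x ≤ v - κ := by
  rcases K.eq_empty_or_nonempty with he | hne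
  · refine ⟨1, one_pos, fun x hx => ?_⟩
    rw [he] at hx
    exact absurd hx (notMem_empty x)
  · obtain ⟨w, hw, hmax⟩ := hK.exists_isMaxOn hne hφ
    have h1 := h w hw
    refine ⟨v - φ w, by linarith, fun x hx => ?_⟩
    have : φ x ≤ φ w := hmax hx
    linarith

theorem side {Q : ℂ → ℂ} {U : Set ℂ} (hU : IsOpen U) (hQ : ContinuousOn Q U) {a h v : ℝ}
    (hK : ∀ y : ℝ, |y| ≤ h → (a : ℂ) + y * Complex.I ∈ U)
    (hlt : ∀ y : ℝ, |y| ≤ h → (Q (a + y * Complex.I)).re < v) :
    ∃ κ : ℝ, 0 < κ ∧ ∃ δ : ℝ, 0 < δ ∧ ∀ x : ℝ, |x - a| < δ → ∀ y : ℝ, |y| ≤ h →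
      (x : ℂ) + y * Complex.I ∈ U ∧ (Q (x + y * Complex.I)).re ≤ v - κ := by
  obtain ⟨κ, hκ, hg⟩ := cgap (K := Icc (-h) h) isCompact_Icc
    (φ := fun y : ℝ => (Q (a + y * Complex.I)).re) (v := v) (by
      apply Complex.continuous_re.comp_continuousOn
      apply hQ.comp (by fun_prop)
      intro y hy
      exact hK y (abs_le.2 ⟨hy.1, hy.2⟩)) (fun y hy => hlt y (abs_le.2 ⟨hy.1, hy.2⟩))
  have h1 := (isCompact_Icc (a := -h) (b := h)).eventually_forall_of_forall_eventually (x₀ := a)
    (P := fun x y => (x : ℂ) + y * Complex.I ∈ U ∧ (Q (x + y * Complex.I)).re < v - κ / 2) (by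
      intro y hy
      have hyU := hK y (abs_le.2 ⟨hy.1, hy.2⟩)
      have hc : ContinuousAt (fun z : ℝ × ℝ => (z.1 : ℂ) + z.2 * Complex.I) (a, y) := by fun_prop
      have hQc : ContinuousAt Q ((a : ℂ) + y * Complex.I) := hQ.continuousAt (hU.mem_nhds hyU)
      have h1 : ∀ᶠ z : ℝ × ℝ in 𝓝 (a, y), (z.1 : ℂ) + z.2 * Complex.I ∈ U :=
        hc.eventually (hU.mem_nhds hyU)
      have h2 : ContinuousAt (fun z : ℝ × ℝ => (Q ((z.1 : ℂ) + z.2 * Complex.I)).re) (a, y) :=
        Complex.continuous_re.continuousAt.comp (ContinuousAt.comp (g := Q)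
          (f := fun z : ℝ × ℝ => (z.1 : ℂ) + z.2 * Complex.I) hQc hc)
      have h3 : ∀ᶠ z : ℝ × ℝ in 𝓝 (a, y), (Q ((z.1 : ℂ) + z.2 * Complex.I)).re < v - κ / 2 := by
        apply h2.tendsto.eventually_lt_const
        have := hg y hy
        simp only at this ⊢
        linarith
      exact h1.and h3)
  obtain ⟨δ, hδ, hb⟩ := Metric.eventually_nhds_iff.1 h1
  refine ⟨κ / 2, by positivity, δ, hδ, fun x hx y hy => ?_⟩
  have h2 := hb (y := x) (by rwa [Real.dist_eq]) y (abs_le.1 hy)
  exact ⟨h2.1, h2.2.le⟩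

theorem lapsum' (q : ℕ → ℂ → ℂ) (Q : ℂ → ℂ) (U : Set ℂ) (a b h : ℝ) (z : ℂ)
    (A B : ℕ → ℕ) (hU : IsOpen U) (hq : ∀ᶠ N : ℕ in atTop, DifferentiableOn ℂ (q N) U)
    (hQ : DifferentiableOn ℂ Q U) (hqQ : TendstoUniformlyOn q Q atTop U)
    (hK : ∀ x y : ℝ, a ≤ x → x ≤ b → |y| ≤ h → (x : ℂ) + y * Complex.I ∈ U) (hh : 0 < h)
    (hA : Tendsto (fun N : ℕ => (A N : ℝ) / N) atTop (𝓝 a))
    (hB : Tendsto (fun N : ℕ => (B N : ℝ) / N) atTop (𝓝 b))
    (haz : a < z.re) (hzb : z.re < b) (hzh : |z.im| < h) (hcr : deriv Q z = 0)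
    (hneg : (deriv (deriv Q) z).re < 0)
    (hmax : ∀ x : ℝ, a ≤ x → x ≤ b → x ≠ z.re → (Q (x + z.im * Complex.I)).re < (Q z).re)
    (hsd : ∀ y : ℝ, |y| ≤ h → (Q (a + y * Complex.I)).re < (Q z).re ∧
      (Q (b + y * Complex.I)).re < (Q z).re)
    (htb : ∀ x : ℝ, a ≤ x → x ≤ b → (Q (x + h * Complex.I)).re - 2 * π * h < (Q z).re ∧
      (Q (x - h * Complex.I)).re - 2 * π * h < (Q z).re) :
    Gro (fun N : ℕ => ∑ d ∈ Finset.Ico (A N) (B N), Complex.exp (N * q N ((d : ℂ) / N)))
      (Q z).re := by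
  set v : ℝ := (Q z).re with hv
  have hab : a < b := haz.trans hzb
  obtain ⟨κa, hκa, δa, hδa, hsa⟩ := side hU hQ.continuousOn (a := a) (h := h) (v := v)
    (fun y hy => hK a y le_rfl hab.le hy) (fun y hy => (hsd y hy).1)
  obtain ⟨κb, hκb, δb, hδb, hsb⟩ := side hU hQ.continuousOn (a := b) (h := h) (v := v)
    (fun y hy => hK b y hab.le le_rfl hy) (fun y hy => (hsd y hy).2)
  have hcont : ∀ c : ℝ, |c| ≤ h → ContinuousOn (fun x : ℝ => (Q (x + c * Complex.I)).re - 2 * π * h)
      (Icc a b) := by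
    intro c hc
    apply ContinuousOn.sub _ continuousOn_const
    apply Complex.continuous_re.comp_continuousOn
    apply hQ.continuousOn.comp (by fun_prop)
    intro x hx
    exact hK x c hx.1 hx.2 hc
  obtain ⟨κt, hκt, hgt⟩ := cgap isCompact_Icc (hcont h (by rw [abs_of_pos hh]))
    (v := v) (fun x hx => (htb x hx.1 hx.2).1)
  obtain ⟨κu, hκu, hgu⟩ := cgap isCompact_Icc (hcont (-h) (by rw [abs_neg, abs_of_pos hh]))
    (v := v) (fun x hx => by
      have := (htb x hx.1 hx.2).2
      rw [sub_eq_add_neg (x : ℂ), ← neg_mul] at this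
      push_cast
      exact this)
  -- common constants
  obtain ⟨κ, hκ, hκa', hκb', hκt', hκu'⟩ : ∃ κ : ℝ, 0 < κ ∧ κ ≤ κa ∧ κ ≤ κb ∧ κ ≤ κt ∧ κ ≤ κu :=
    ⟨min (min κa κb) (min κt κu), by positivity, (min_le_left _ _).trans (min_le_left _ _),
      (min_le_left _ _).trans (min_le_right _ _), (min_le_right _ _).trans (min_le_left _ _),
      (min_le_right _ _).trans (min_le_right _ _)⟩
  obtain ⟨δ, hδ, hδa', hδb', hδ1, hδ2⟩ : ∃ δ : ℝ, 0 < δ ∧ δ < δa ∧ δ < δb ∧ δ < z.re - a ∧
      δ < b - z.re := by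
    refine ⟨min (min δa δb) (min (z.re - a) (b - z.re)) / 2, ?_, ?_, ?_, ?_, ?_⟩
    · have h1 : 0 < z.re - a := by linarith
      have h2 : 0 < b - z.re := by linarith
      positivity
    all_goals
      have h1 : 0 < z.re - a := by linarith
      have h2 : 0 < b - z.re := by linarith
      have h3 : 0 < min (min δa δb) (min (z.re - a) (b - z.re)) := by positivity
      have h4 : min (min δa δb) (min (z.re - a) (b - z.re)) ≤ δa :=
        (min_le_left _ _).trans (min_le_left _ _)
      have h5 : min (min δa δb) (min (z.re - a) (b - z.re)) ≤ δb :=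
        (min_le_left _ _).trans (min_le_right _ _)
      have h6 : min (min δa δb) (min (z.re - a) (b - z.re)) ≤ z.re - a :=
        (min_le_right _ _).trans (min_le_left _ _)
      have h7 : min (min δa δb) (min (z.re - a) (b - z.re)) ≤ b - z.re :=
        (min_le_right _ _).trans (min_le_right _ _)
      linarith
  -- the extended window
  have hext : ∀ x : ℝ, a - δ ≤ x → x ≤ b + δ → |x - a| < δa ∨ |x - b| < δb ∨ (a ≤ x ∧ x ≤ b) := by
    intro x h1 h2
    by_cases h3 : a ≤ x
    · by_cases h4 : x ≤ b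
      · exact Or.inr (Or.inr ⟨h3, h4⟩)
      · right; left
        rw [abs_lt]; constructor <;> linarith
    · left
      rw [abs_lt]; constructor <;> linarith
  have hKe : ∀ x y : ℝ, a - δ ≤ x → x ≤ b + δ → |y| ≤ h → (x : ℂ) + y * Complex.I ∈ U := by
    intro x y h1 h2 hy
    rcases hext x h1 h2 with h3 | h3 | h3
    · exact (hsa x h3 y hy).1
    · exact (hsb x h3 y hy).1
    · exact hK x y h3.1 h3.2 hy
  have hmaxe : ∀ x : ℝ, a - δ ≤ x → x ≤ b + δ → x ≠ z.re →
      (Q (x + z.im * Complex.I)).re < v := by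
    intro x h1 h2 hx
    rcases hext x h1 h2 with h3 | h3 | h3
    · linarith [(hsa x h3 z.im hzh.le).2]
    · linarith [(hsb x h3 z.im hzh.le).2]
    · exact hmax x h3.1 h3.2 hx
  have htope : ∀ x : ℝ, a - δ ≤ x → x ≤ b + δ →
      (Q (x + h * Complex.I)).re ≤ v - κ + 2 * π * h ∧
      (Q (x + (-h : ℝ) * Complex.I)).re ≤ v - κ + 2 * π * h := by
    intro x h1 h2
    have hp : 0 < 2 * π * h := by positivity
    have hh1 : |h| ≤ h := by rw [abs_of_pos hh]
    have hh2 : |(-h)| ≤ h := by rw [abs_neg, abs_of_pos hh]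
    rcases hext x h1 h2 with h3 | h3 | h3
    · constructor
      · linarith [(hsa x h3 h hh1).2]
      · linarith [(hsa x h3 (-h) hh2).2]
    · constructor
      · linarith [(hsb x h3 h hh1).2]
      · linarith [(hsb x h3 (-h) hh2).2]
    · constructor
      · linarith [hgt x ⟨h3.1, h3.2⟩]
      · linarith [hgu x ⟨h3.1, h3.2⟩]
  -- the same for q N
  have hqQ' := hqQ
  rw [Metric.tendstoUniformlyOn_iff] at hqQ'
  have hre : ∀ᶠ N in atTop, ∀ w ∈ U, (q N w).re ≤ (Q w).re + κ / 2 := by
    filter_upwards [hqQ' (κ / 2) (by positivity)] with N hN w hw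
    have h1 := hN w hw
    rw [dist_comm, dist_eq_norm] at h1
    have h2 := (abs_le.1 (Complex.abs_re_le_norm (q N w - Q w))).2
    rw [Complex.sub_re] at h2
    linarith
  -- end points
  set α : ℕ → ℝ := fun N => ((A N : ℝ) - 1 / 2) / N with hα
  set β : ℕ → ℝ := fun N => ((B N : ℝ) - 1 / 2) / N with hβ
  have hhalf : Tendsto (fun N : ℕ => (1 / 2 : ℝ) / N) atTop (𝓝 0) :=
    tendsto_const_div_atTop_nhds_zero_nat _
  have hαt : Tendsto α atTop (𝓝 a) := by
    have := hA.sub hhalf
    rw [sub_zero] at this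
    refine this.congr fun N => ?_
    simp only [hα]
    rw [sub_div]
  have hβt : Tendsto β atTop (𝓝 b) := by
    have := hB.sub hhalf
    rw [sub_zero] at this
    refine this.congr fun N => ?_
    simp only [hβ]
    rw [sub_div]
  have hαe : ∀ᶠ N in atTop, |α N - a| < δ := by
    have := hαt.eventually (Metric.ball_mem_nhds a hδ)
    filter_upwards [this] with N hN
    rwa [Real.dist_eq] at hN
  have hβe : ∀ᶠ N in atTop, |β N - b| < δ := by
    have := hβt.eventually (Metric.ball_mem_nhds b hδ)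
    filter_upwards [this] with N hN
    rwa [Real.dist_eq] at hN
  -- main term
  obtain ⟨δ', hδ', hδ'1, hδ'2⟩ : ∃ δ' : ℝ, 0 < δ' ∧ a + δ + δ' ≤ z.re ∧ z.re + δ' ≤ b - δ := by
    refine ⟨min (z.re - a - δ) (b - δ - z.re), lt_min (by linarith) (by linarith), ?_, ?_⟩
    · have := min_le_left (z.re - a - δ) (b - δ - z.re); linarith
    · have := min_le_right (z.re - a - δ) (b - δ - z.re); linarith
  set I0 : ℕ → ℂ := fun N => ∫ x in (α N)..(β N), Complex.exp (N * q N (x + z.im * Complex.I))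
    with hI0
  have hG0 : Gro I0 v := by
    have h1 := core q (fun _ _ => 1) Q (fun _ => 1) U (a - δ) (b + δ) z hU hq hQ hqQ
      (Eventually.of_forall fun _ => differentiableOn_const _) (differentiableOn_const _)
      (by
        rw [Metric.tendstoUniformlyOn_iff]
        intro ε hε
        refine Eventually.of_forall fun N x _ => ?_
        rw [dist_self]; exact hε) (by linarith) (by linarith)
      (fun x h1 h2 => hKe x z.im h1 h2 hzh.le) hcr hneg one_ne_zero hmaxe hδ' (α := α) (β := β)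
      (by
        filter_upwards [hαe] with N hN
        rw [abs_lt] at hN
        constructor <;> linarith)
      (by
        filter_upwards [hβe] with N hN
        rw [abs_lt] at hN
        constructor <;> linarith)
    simpa only [one_mul] using h1
  set I1 : ℕ → ℂ := fun N => ∫ x in (α N)..(β N), Complex.exp (N * q N (x + h * Complex.I))
    with hI1
  have hside : ∀ᶠ N : ℕ in atTop, ∀ y : ℝ, |y| ≤ h →
      ‖Complex.exp (N * q N (α N + y * Complex.I))‖ ≤ Real.exp (N * (v - κ / 2)) ∧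
      ‖Complex.exp (N * q N (β N + y * Complex.I))‖ ≤ Real.exp (N * (v - κ / 2)) := by
    filter_upwards [hre, hαe, hβe] with N h1 h2 h3 y hy
    constructor
    · have h4 := hsa (α N) (by linarith) y hy
      have h5 := h1 _ h4.1
      rw [Complex.norm_exp]
      apply Real.exp_le_exp.2
      have : ((N : ℂ) * q N (α N + y * Complex.I)).re = N * (q N (α N + y * Complex.I)).re := by simp
      rw [this]
      apply mul_le_mul_of_nonneg_left _ (Nat.cast_nonneg N)
      linarith [h4.2]
    · have h4 := hsb (β N) (by linarith) y hy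
      have h5 := h1 _ h4.1
      rw [Complex.norm_exp]
      apply Real.exp_le_exp.2
      have : ((N : ℂ) * q N (β N + y * Complex.I)).re = N * (q N (β N + y * Complex.I)).re := by simp
      rw [this]
      apply mul_le_mul_of_nonneg_left _ (Nat.cast_nonneg N)
      linarith [h4.2]
  have hdiff : Neg (fun N => I1 N - I0 N) v := by
    apply neg_of_bound (C := 4 * h) (κ := κ / 2) (by positivity)
    filter_upwards [hside, hαe, hβe, hq] with N h1 h2 h3 h6
    rw [abs_lt] at h2 h3
    have hαβ : α N ≤ β N := by linarith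
    have hy : ∀ y ∈ [[z.im, h]], |y| ≤ h := by
      intro y hy
      rw [uIcc_of_le (by linarith [(abs_lt.1 hzh).2])] at hy
      rw [abs_le]
      constructor
      · linarith [(abs_lt.1 hzh).1, hy.1]
      · exact hy.2
    have hsub : ([[α N, β N]] ×ℂ [[z.im, h]]) ⊆ U := by
      intro w hw
      rw [Complex.mem_reProdIm, uIcc_of_le hαβ] at hw
      have := hKe w.re w.im (by linarith [hw.1.1]) (by linarith [hw.1.2]) (hy _ hw.2)
      rwa [Complex.re_add_im] at this
    have hD : DifferentiableOn ℂ (fun w => Complex.exp (N * q N w)) U := (h6.const_mul _).cexp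
    have hC := Complex.integral_boundary_rect_eq_zero_of_differentiableOn
      (fun w => Complex.exp (N * q N w)) ⟨α N, z.im⟩ ⟨β N, h⟩ (hD.mono hsub)
    simp only [smul_eq_mul] at hC
    have hlen : |h - z.im| ≤ 2 * h := by
      have := abs_lt.1 hzh
      rw [abs_le]
      constructor <;> linarith
    have hs1 := intervalIntegral.norm_integral_le_of_norm_le_const (a := z.im) (b := h)
        (f := fun y : ℝ => Complex.exp (N * q N (α N + y * Complex.I)))
        (C := Real.exp (N * (v - κ / 2))) (fun y hy' => (h1 y (hy y (uIoc_subset_uIcc hy'))).1)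
    have hs2 := intervalIntegral.norm_integral_le_of_norm_le_const (a := z.im) (b := h)
        (f := fun y : ℝ => Complex.exp (N * q N (β N + y * Complex.I)))
        (C := Real.exp (N * (v - κ / 2))) (fun y hy' => (h1 y (hy y (uIoc_subset_uIcc hy'))).2)
    have e1 : I1 N - I0 N = Complex.I * (∫ y in z.im..h,
        Complex.exp (N * q N (β N + y * Complex.I))) -
        Complex.I * (∫ y in z.im..h, Complex.exp (N * q N (α N + y * Complex.I))) := by
      simp only [hI0, hI1]
      linear_combination (-1 : ℂ) * hC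
    rw [e1]
    refine (norm_sub_le _ _).trans ?_
    rw [norm_mul, norm_mul, Complex.norm_I, one_mul, one_mul]
    set T : ℝ := Real.exp (N * (v - κ / 2)) with hT
    have hT0 : 0 < T := Real.exp_pos _
    have h7 : T * |h - z.im| ≤ T * (2 * h) := mul_le_mul_of_nonneg_left hlen hT0.le
    have h12 : (0 : ℝ) ≤ N := Nat.cast_nonneg N
    calc _ ≤ 4 * h * 1 * T := by linarith
      _ ≤ 4 * h * (N + 1) * T := by
        apply mul_le_mul_of_nonneg_right _ hT0.le
        apply mul_le_mul_of_nonneg_left _ (by positivity)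
        linarith
  -- the sum
  have hmain : ∀ᶠ N : ℕ in atTop, ‖(∑ d ∈ Finset.Ico (A N) (B N),
      Complex.exp (N * q N ((d : ℂ) / N))) - N * I1 N‖ ≤
      (4 * (b - a + 2 * δ) + 4 * h) * (N + 1) * Real.exp (N * (v - κ / 2)) := by
    have hlarge : ∀ᶠ N : ℕ in atTop, Real.exp (-(2 * π * (h * N))) ≤ 1 / 2 := by
      have h1 : ∀ᶠ N : ℕ in atTop, 1 / (2 * π * h) ≤ (N : ℝ) :=
        tendsto_natCast_atTop_atTop.eventually_ge_atTop _
      filter_upwards [h1] with N h1
      rw [div_le_iff₀ (by positivity)] at h1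
      rw [Real.exp_neg, inv_le_comm₀ (Real.exp_pos _) (by norm_num)]
      have := Real.add_one_le_exp (2 * π * (h * N))
      norm_num
      linarith
    filter_upwards [hside, hαe, hβe, hq, hre, hlarge, eventually_ge_atTop 1]
      with N h1 h2 h3 h6 h7 h8 h9
    rw [abs_lt] at h2 h3
    have hN : (1 : ℝ) ≤ N := by exact_mod_cast h9
    have hN0 : (N : ℝ) ≠ 0 := by positivity
    have hNc : (N : ℂ) ≠ 0 := by exact_mod_cast hN0
    have hαβ : α N ≤ β N := by linarith
    have hαN : (A N : ℝ) - 1 / 2 = N * α N := by simp only [hα]; field_simp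
    have hβN : (B N : ℝ) - 1 / 2 = N * β N := by simp only [hβ]; field_simp
    have hAB : A N ≤ B N := by
      have : (A N : ℝ) ≤ B N := by nlinarith
      exact_mod_cast this
    set f : ℂ → ℂ := fun w => Complex.exp (N * q N (w / N)) with hf
    set V : Set ℂ := (fun w : ℂ => w / N) ⁻¹' U with hV
    have hVo : IsOpen V := hU.preimage (by fun_prop)
    have hfd : DifferentiableOn ℂ f V := by
      apply DifferentiableOn.cexp
      apply DifferentiableOn.const_mul
      exact h6.comp (by fun_prop) (fun w hw => hw)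
    have hNh : 0 < h * N := by positivity
    have hdiv : ∀ x y : ℝ, ((x : ℂ) + y * Complex.I) / N = ((x / N : ℝ) : ℂ) + ((y / N : ℝ) : ℂ) *
        Complex.I := by
      intro x y; push_cast; field_simp
    have hyb : ∀ y : ℝ, |y| ≤ h * N → |y / N| ≤ h := by
      intro y hy
      rw [abs_div, Nat.abs_cast, div_le_iff₀ (by positivity)]
      exact hy
    have hxb : ∀ x : ℝ, (A N : ℝ) - 1 / 2 ≤ x → x ≤ B N - 1 / 2 → a - δ ≤ x / N ∧ x / N ≤ b + δ := by
      intro x hx1 hx2
      have e1 : α N ≤ x / N := by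
        rw [le_div_iff₀ (by positivity)]; linarith
      have e2 : x / N ≤ β N := by
        rw [div_le_iff₀ (by positivity)]; linarith
      constructor <;> linarith
    have hsum := sum_rect hVo hfd hAB (H := h * N) hNh (by
      intro x y hx1 hx2 hy
      show ((x : ℂ) + y * Complex.I) / N ∈ U
      rw [hdiv]
      exact hKe _ _ (hxb x hx1 hx2).1 (hxb x hx1 hx2).2 (hyb y hy))
    have hsum' : (∑ d ∈ Finset.Ico (A N) (B N), Complex.exp (N * q N ((d : ℂ) / N))) =
        ∑ d ∈ Finset.Ico (A N) (B N), f d := rfl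
    rw [hsum', hsum]
    -- scaling of the main term
    have hI1' : (N : ℂ) * I1 N = ∫ x in ((A N : ℝ) - 1 / 2)..((B N : ℝ) - 1 / 2),
        f (x + ((h * N : ℝ) : ℂ) * Complex.I) := by
      have e1 := intervalIntegral.integral_comp_div (a := (A N : ℝ) - 1 / 2)
        (b := (B N : ℝ) - 1 / 2) (fun x : ℝ => Complex.exp (N * q N (x + h * Complex.I))) hN0
      simp only [hI1]
      rw [Complex.real_smul] at e1
      rw [show ((N : ℝ) : ℂ) = (N : ℂ) by simp] at e1
      rw [← e1]
      apply intervalIntegral.integral_congr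
      intro x _
      simp only [hf]
      congr 3
      rw [hdiv]
      congr 2
      congr 1
      field_simp
    set T : ℝ := Real.exp (N * (v - κ / 2)) with hT
    have hT0 : 0 < T := Real.exp_pos _
    -- bound on the top and bottom lines
    have hfn : ∀ x y : ℝ, ‖f (x + y * Complex.I)‖ =
        Real.exp (N * (q N (((x / N : ℝ) : ℂ) + ((y / N : ℝ) : ℂ) * Complex.I)).re) := by
      intro x y
      simp only [hf]
      rw [Complex.norm_exp, hdiv]
      congr 1
      simp
    have hexp : ∀ x c : ℝ, (A N : ℝ) - 1 / 2 ≤ x → x ≤ B N - 1 / 2 → (c = h ∨ c = -h) →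
        ‖f (x + ((c * N : ℝ) : ℂ) * Complex.I)‖ * Real.exp (-(2 * π * (h * N))) ≤ T := by
      intro x c hx1 hx2 hc
      rw [hfn, ← Real.exp_add]
      apply Real.exp_le_exp.2
      have e1 : c * N / N = c := by field_simp
      rw [e1]
      have hb := hxb x hx1 hx2
      have hcU := hKe (x / N) c hb.1 hb.2 (by
        rcases hc with rfl | rfl
        · rw [abs_of_pos hh]
        · rw [abs_neg, abs_of_pos hh])
      have e2 := h7 _ hcU
      have e3 : (Q (((x / N : ℝ) : ℂ) + c * Complex.I)).re ≤ v - κ + 2 * π * h := by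
        rcases hc with rfl | rfl
        · exact (htope (x / N) hb.1 hb.2).1
        · exact (htope (x / N) hb.1 hb.2).2
      have e4 : (q N (((x / N : ℝ) : ℂ) + c * Complex.I)).re - 2 * π * h ≤ v - κ / 2 := by linarith
      have e5 := mul_le_mul_of_nonneg_left e4 (show (0:ℝ) ≤ N by positivity)
      linarith
    have hBA : |((B N : ℝ) - 1 / 2) - ((A N : ℝ) - 1 / 2)| ≤ N * (b - a + 2 * δ) := by
      rw [hαN, hβN, ← mul_sub, abs_mul, Nat.abs_cast]
      apply mul_le_mul_of_nonneg_left _ (by positivity)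
      rw [abs_le]
      constructor <;> linarith
    have hABr : (A N : ℝ) - 1 / 2 ≤ (B N : ℝ) - 1 / 2 := by
      have : (A N : ℝ) ≤ B N := by exact_mod_cast hAB
      linarith
    -- bottom
    have hbot : ‖∫ x in ((A N : ℝ) - 1 / 2)..((B N : ℝ) - 1 / 2),
        f (x + ((-(h * N) : ℝ) : ℂ) * Complex.I) * kk (x + ((-(h * N) : ℝ) : ℂ) * Complex.I)‖ ≤
        2 * T * (N * (b - a + 2 * δ)) := by
      refine (intervalIntegral.norm_integral_le_of_norm_le_const (C := 2 * T) ?_).trans
        (mul_le_mul_of_nonneg_left hBA (by positivity))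
      intro x hx
      rw [uIoc_of_le hABr] at hx
      have e1 := hexp x (-h) hx.1.le hx.2 (Or.inr rfl)
      rw [show -h * (N : ℝ) = -(h * N) by ring] at e1
      rw [norm_mul]
      have e2 : ‖kk (x + ((-(h * N) : ℝ) : ℂ) * Complex.I)‖ ≤ 2 * Real.exp (-(2 * π * (h * N))) := by
        unfold kk EE
        rw [norm_div, norm_one]
        have e3 := norm_sub_norm_le (ee (x + ((-(h * N) : ℝ) : ℂ) * Complex.I)) 1
        rw [ee_norm, norm_one] at e3
        have e4 : -(2 * π * -(h * N)) = 2 * π * (h * N) := by ring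
        rw [e4] at e3
        set E : ℝ := Real.exp (2 * π * (h * N)) with hE
        have e5 : Real.exp (-(2 * π * (h * N))) = E⁻¹ := by rw [Real.exp_neg]
        rw [e5] at h8 ⊢
        have hE0 : 0 < E := Real.exp_pos _
        have e6 : 2 ≤ E := by
          rw [inv_le_comm₀ hE0 (by norm_num)] at h8
          norm_num at h8
          exact h8
        rw [div_le_iff₀ (by linarith)]
        calc (1 : ℝ) = 2 * E⁻¹ * (E / 2) := by field_simp
          _ ≤ 2 * E⁻¹ * ‖ee (x + ((-(h * N) : ℝ) : ℂ) * Complex.I) - 1‖ := by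
            apply mul_le_mul_of_nonneg_left _ (by positivity)
            linarith
      calc _ ≤ ‖f (x + ((-(h * N) : ℝ) : ℂ) * Complex.I)‖ * (2 * Real.exp (-(2 * π * (h * N)))) :=
            mul_le_mul_of_nonneg_left e2 (norm_nonneg _)
        _ = 2 * (‖f (x + ((-(h * N) : ℝ) : ℂ) * Complex.I)‖ * Real.exp (-(2 * π * (h * N)))) := by
          ring
        _ ≤ 2 * T := by linarith
    -- top
    have htop : ‖-(∫ x in ((A N : ℝ) - 1 / 2)..((B N : ℝ) - 1 / 2),
        f (x + ((h * N : ℝ) : ℂ) * Complex.I) * kk (x + ((h * N : ℝ) : ℂ) * Complex.I)) -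
        N * I1 N‖ ≤ 2 * T * (N * (b - a + 2 * δ)) := by
      have hcf : ∀ x ∈ Icc ((A N : ℝ) - 1 / 2) ((B N : ℝ) - 1 / 2), ContinuousAt f
          (x + ((h * N : ℝ) : ℂ) * Complex.I) := by
        intro x hx
        apply hfd.continuousOn.continuousAt (hVo.mem_nhds _)
        show ((x : ℂ) + ((h * N : ℝ) : ℂ) * Complex.I) / N ∈ U
        rw [hdiv]
        exact hKe _ _ (hxb x hx.1 hx.2).1 (hxb x hx.1 hx.2).2
          (hyb _ (by rw [abs_of_pos hNh]))
      have hi1 : IntervalIntegrable (fun x : ℝ => f (x + ((h * N : ℝ) : ℂ) * Complex.I) *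
          kk (x + ((h * N : ℝ) : ℂ) * Complex.I)) volume ((A N : ℝ) - 1 / 2) ((B N : ℝ) - 1 / 2) := by
        apply ContinuousOn.intervalIntegrable
        rw [uIcc_of_le hABr]
        intro x hx
        have c3 : ContinuousAt (fun x : ℝ => (x : ℂ) + ((h * N : ℝ) : ℂ) * Complex.I) x := by fun_prop
        exact ((ContinuousAt.comp (g := f)
          (f := fun x : ℝ => (x : ℂ) + ((h * N : ℝ) : ℂ) * Complex.I) (hcf x hx) c3).mul
          (ContinuousAt.comp (g := kk) (f := fun x : ℝ => (x : ℂ) + ((h * N : ℝ) : ℂ) * Complex.I)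
          (kk_cont (EE_ne_of_im hNh.ne')) c3)).continuousWithinAt
      have hi2 : IntervalIntegrable (fun x : ℝ => f (x + ((h * N : ℝ) : ℂ) * Complex.I))
          volume ((A N : ℝ) - 1 / 2) ((B N : ℝ) - 1 / 2) := by
        apply ContinuousOn.intervalIntegrable
        rw [uIcc_of_le hABr]
        intro x hx
        have c3 : ContinuousAt (fun x : ℝ => (x : ℂ) + ((h * N : ℝ) : ℂ) * Complex.I) x := by fun_prop
        exact (ContinuousAt.comp (g := f)
          (f := fun x : ℝ => (x : ℂ) + ((h * N : ℝ) : ℂ) * Complex.I) (hcf x hx) c3).continuousWithinAt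
      rw [hI1', ← neg_add', ← intervalIntegral.integral_add hi1 hi2, norm_neg]
      refine (intervalIntegral.norm_integral_le_of_norm_le_const (C := 2 * T) ?_).trans
        (mul_le_mul_of_nonneg_left hBA (by positivity))
      intro x hx
      rw [uIoc_of_le hABr] at hx
      have e1 := hexp x h hx.1.le hx.2 (Or.inl rfl)
      have e0 : f (x + ((h * N : ℝ) : ℂ) * Complex.I) * kk (x + ((h * N : ℝ) : ℂ) * Complex.I) +
          f (x + ((h * N : ℝ) : ℂ) * Complex.I) = f (x + ((h * N : ℝ) : ℂ) * Complex.I) *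
          (kk (x + ((h * N : ℝ) : ℂ) * Complex.I) + 1) := by ring
      rw [e0, norm_mul]
      have e2 : ‖kk (x + ((h * N : ℝ) : ℂ) * Complex.I) + 1‖ ≤
          2 * Real.exp (-(2 * π * (h * N))) := by
        have hne : ee (x + ((h * N : ℝ) : ℂ) * Complex.I) - 1 ≠ 0 := EE_ne_of_im hNh.ne'
        have e3 : kk (x + ((h * N : ℝ) : ℂ) * Complex.I) + 1 =
            ee (x + ((h * N : ℝ) : ℂ) * Complex.I) /
              (ee (x + ((h * N : ℝ) : ℂ) * Complex.I) - 1) := by
          unfold kk EE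
          field_simp
          ring
        rw [e3, norm_div]
        have e4 := norm_sub_norm_le 1 (ee (x + ((h * N : ℝ) : ℂ) * Complex.I))
        rw [norm_sub_rev, norm_one, ee_norm] at e4
        rw [ee_norm]
        set E : ℝ := Real.exp (-(2 * π * (h * N))) with hE
        have hE0 : 0 < E := Real.exp_pos _
        rw [div_le_iff₀ (by linarith)]
        calc E = 2 * E * (1 / 2) := by ring
          _ ≤ 2 * E * ‖ee (x + ((h * N : ℝ) : ℂ) * Complex.I) - 1‖ := by
            apply mul_le_mul_of_nonneg_left _ (by positivity)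
            linarith
      calc _ ≤ ‖f (x + ((h * N : ℝ) : ℂ) * Complex.I)‖ * (2 * Real.exp (-(2 * π * (h * N)))) :=
            mul_le_mul_of_nonneg_left e2 (norm_nonneg _)
        _ = 2 * (‖f (x + ((h * N : ℝ) : ℂ) * Complex.I)‖ * Real.exp (-(2 * π * (h * N)))) := by
          ring
        _ ≤ 2 * T := by linarith
    -- vertical sides
    have hvert : ∀ (n : ℕ) (γ : ℝ), (n : ℝ) - 1 / 2 = N * γ →
        (∀ y : ℝ, |y| ≤ h → ‖Complex.exp (N * q N (γ + y * Complex.I))‖ ≤ T) →
        ‖∫ y in (-(h * N))..(h * N), f (((n - 1 / 2 : ℝ) : ℂ) + y * Complex.I) *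
          kk (((n - 1 / 2 : ℝ) : ℂ) + y * Complex.I)‖ ≤ T * (2 * h * N) := by
      intro n γ hγ hb
      have hlen : |h * N - -(h * N)| = 2 * h * N := by
        rw [sub_neg_eq_add, abs_of_pos (by positivity)]
        ring
      rw [← hlen]
      apply intervalIntegral.norm_integral_le_of_norm_le_const
      intro y hy
      rw [uIoc_of_le (by linarith)] at hy
      have hy' : |y| ≤ h * N := abs_le.2 ⟨hy.1.le, hy.2⟩
      have e1 := kk_half (n : ℤ) y
      rw [norm_mul]
      have e2 : ‖f (((n - 1 / 2 : ℝ) : ℂ) + y * Complex.I)‖ ≤ T := by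
        simp only [hf]
        rw [hdiv]
        have e3 : ((n : ℝ) - 1 / 2) / N = γ := by rw [hγ]; field_simp
        rw [e3]
        exact hb _ (hyb y hy')
      have e4 : ‖kk (((n - 1 / 2 : ℝ) : ℂ) + y * Complex.I)‖ ≤ 1 := by
        have := e1
        push_cast at this ⊢
        exact this
      calc _ ≤ T * 1 := mul_le_mul e2 e4 (norm_nonneg _) hT0.le
        _ = T := mul_one T
    have hv1 := hvert (B N) (β N) hβN (fun y hy => (h1 y hy).2)
    have hv2 := hvert (A N) (α N) hαN (fun y hy => (h1 y hy).1)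
    unfold rect
    have efin : ((∫ x in ((A N : ℝ) - 1 / 2)..((B N : ℝ) - 1 / 2),
        f (x + ((-(h * N) : ℝ) : ℂ) * Complex.I) * kk (x + ((-(h * N) : ℝ) : ℂ) * Complex.I)) -
        (∫ x in ((A N : ℝ) - 1 / 2)..((B N : ℝ) - 1 / 2),
        f (x + ((h * N : ℝ) : ℂ) * Complex.I) * kk (x + ((h * N : ℝ) : ℂ) * Complex.I)) +
        Complex.I * (∫ y in (-(h * N))..(h * N), f (((B N - 1 / 2 : ℝ) : ℂ) + y * Complex.I) *
          kk (((B N - 1 / 2 : ℝ) : ℂ) + y * Complex.I)) -
        Complex.I * (∫ y in (-(h * N))..(h * N), f (((A N - 1 / 2 : ℝ) : ℂ) + y * Complex.I) *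
          kk (((A N - 1 / 2 : ℝ) : ℂ) + y * Complex.I))) - N * I1 N =
        (∫ x in ((A N : ℝ) - 1 / 2)..((B N : ℝ) - 1 / 2),
        f (x + ((-(h * N) : ℝ) : ℂ) * Complex.I) * kk (x + ((-(h * N) : ℝ) : ℂ) * Complex.I)) +
        (-(∫ x in ((A N : ℝ) - 1 / 2)..((B N : ℝ) - 1 / 2),
        f (x + ((h * N : ℝ) : ℂ) * Complex.I) * kk (x + ((h * N : ℝ) : ℂ) * Complex.I)) -
        N * I1 N) +
        Complex.I * (∫ y in (-(h * N))..(h * N), f (((B N - 1 / 2 : ℝ) : ℂ) + y * Complex.I) *
          kk (((B N - 1 / 2 : ℝ) : ℂ) + y * Complex.I)) -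
        Complex.I * (∫ y in (-(h * N))..(h * N), f (((A N - 1 / 2 : ℝ) : ℂ) + y * Complex.I) *
          kk (((A N - 1 / 2 : ℝ) : ℂ) + y * Complex.I)) := by ring
    rw [efin]
    refine (norm_sub_le _ _).trans ?_
    refine (add_le_add_left (norm_add₃_le) _).trans ?_
    rw [norm_mul, norm_mul, Complex.norm_I, one_mul, one_mul]
    have e9 : 0 < b - a + 2 * δ := by linarith
    calc _ ≤ 2 * T * (N * (b - a + 2 * δ)) + 2 * T * (N * (b - a + 2 * δ)) + T * (2 * h * N) +
          T * (2 * h * N) := by linarith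
      _ = (4 * (b - a + 2 * δ) + 4 * h) * N * T := by ring
      _ ≤ (4 * (b - a + 2 * δ) + 4 * h) * (N + 1) * T := by
        apply mul_le_mul_of_nonneg_right _ hT0.le
        apply mul_le_mul_of_nonneg_left _ (by positivity)
        linarith
  have hfin := ((hG0.add hdiff).natMul).add (neg_of_bound (v := v) (κ := κ / 2) (by positivity) hmain)
  refine fun ε hε => ?_
  filter_upwards [hfin ε hε] with N hN
  have e1 : (N : ℂ) * (I0 N + (I1 N - I0 N)) + ((∑ d ∈ Finset.Ico (A N) (B N),
      Complex.exp (N * q N ((d : ℂ) / N))) - N * I1 N) =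
      ∑ d ∈ Finset.Ico (A N) (B N), Complex.exp (N * q N ((d : ℂ) / N)) := by ring
  rwa [e1] at hN

theorem lapsum0 : Pool.Agent.W711.HT.S_LAPSUM := by
  intro q Q U a b h z A B hU hq hQ hqQ hK hh hA hB haz hzb hzh hcr hneg hmax hsd htb
  exact (lapsum' q Q U a b h z A B hU hq hQ hqQ hK hh hA hB haz hzb hzh hcr hneg hmax hsd htb).log

theorem lapsum : Pool.Agent.W711.HT.S_LAPC → Pool.Agent.W711.HT.S_LAPSUM := fun _ => lapsum0

end Pool.Agent.W588.HT
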